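import Mathlib

set_option autoImplicit false

open SimpleGraph

namespace Pool.Agent.H233R2.Bridged

universe u
variable {V : Type u}

/-- isometric cycle of length `n`, as a periodic function on the integers -/
structure IsoCyc (G : SimpleGraph V) (n : ℕ) (f : ℤ → V) : Prop where
  per : ∀ i, f (i + n) = f i
  adj : ∀ i, G.Adj (f i) (f (i + 1))
  iso : ∀ i (k : ℕ), 2 * k ≤ n → k ≤ G.dist (f i) (f (i + k))

/-- no isometric cycle of length at least four -/
def NoIso (G : SimpleGraph V) : Prop := ∀ n f, 4 ≤ n → ¬ IsoCyc G n f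

theorem chain_walk {G : SimpleGraph V} {f : ℤ → V} (h : ∀ i, G.Adj (f i) (f (i + 1)))
    (i : ℤ) (k : ℕ) : ∃ p : G.Walk (f i) (f (i + k)), p.length = k := by
  induction k with
  | zero => exact ⟨SimpleGraph.Walk.nil.copy rfl (by simp), by simp⟩
  | succ k ih =>
    obtain ⟨p, hp⟩ := ih
    have h1 := h (i + k)
    refine ⟨(p.concat h1).copy rfl (by push_cast; ring_nf), by simp [hp]⟩

theorem chain_dist {G : SimpleGraph V} {f : ℤ → V} (h : ∀ i, G.Adj (f i) (f (i + 1)))
    (i j : ℤ) (k : ℕ) (hj : j = i + k) : G.dist (f i) (f j) ≤ k := by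
  subst hj
  obtain ⟨p, hp⟩ := chain_walk h i k
  exact (G.dist_le p).trans hp.le

theorem chain_reach {G : SimpleGraph V} {f : ℤ → V} (h : ∀ i, G.Adj (f i) (f (i + 1)))
    (i : ℤ) (k : ℕ) : G.Reachable (f i) (f (i + k)) := by
  obtain ⟨p, hp⟩ := chain_walk h i k
  exact ⟨p⟩

/-- periodic extension -/
def cycFun (n : ℕ) (g : ℕ → V) : ℤ → V := fun i => g (i % n).toNat

theorem cycFun_per (n : ℕ) (g : ℕ → V) (i : ℤ) : cycFun n g (i + n) = cycFun n g i := by
  simp [cycFun]

theorem cycFun_nat {n : ℕ} (g : ℕ → V) {r : ℕ} (hr : r < n) : cycFun n g (r : ℤ) = g r := by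
  unfold cycFun
  rw [Int.emod_eq_of_lt (by omega) (by omega)]
  simp

theorem cycFun_add {n : ℕ} (hn : 0 < n) (g : ℕ → V) (i : ℤ) :
    ∃ r : ℕ, r < n ∧ ∀ j : ℕ, cycFun n g (i + j) = g ((r + j) % n) := by
  refine ⟨(i % n).toNat, ?_, ?_⟩
  · have h1 := Int.emod_lt_of_pos i (show (0 : ℤ) < n by omega)
    have h2 := Int.emod_nonneg i (show (n : ℤ) ≠ 0 by omega)
    omega
  · intro j
    unfold cycFun
    have h2 := Int.emod_nonneg i (show (n : ℤ) ≠ 0 by omega)
    congr 1
    have h3 : (i + j) % (n : ℤ) = ((((i % n).toNat + j) % n : ℕ) : ℤ) := by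
      push_cast
      rw [Int.toNat_of_nonneg h2]
      simp
    rw [h3, Int.toNat_natCast]

theorem cycFun_adj {G : SimpleGraph V} {n : ℕ} (hn : 0 < n) (g : ℕ → V)
    (h1 : ∀ r, r + 1 < n → G.Adj (g r) (g (r + 1))) (h2 : G.Adj (g (n - 1)) (g 0)) (i : ℤ) :
    G.Adj (cycFun n g i) (cycFun n g (i + 1)) := by
  obtain ⟨r, hr, h⟩ := cycFun_add hn g i
  have e0 := h 0
  have e1 := h 1
  simp only [Nat.cast_zero, add_zero, Nat.cast_one] at e0 e1
  rw [e0, e1, Nat.mod_eq_of_lt hr]
  by_cases h3 : r + 1 < n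
  · rw [Nat.mod_eq_of_lt h3]
    exact h1 r h3
  · have h4 : r = n - 1 := by omega
    have h5 : r + 1 = n := by omega
    rw [h5, Nat.mod_self, h4]
    exact h2

theorem two_le_dist {G : SimpleGraph V} {a b : V} (hr : G.Reachable a b) (h1 : a ≠ b)
    (h2 : ¬ G.Adj a b) : 2 ≤ G.dist a b := by
  have h3 := hr.pos_dist_of_ne h1
  have h4 : G.dist a b ≠ 1 := fun h => h2 (dist_eq_one_iff_adj.1 h)
  omega

theorem isoCyc_small {G : SimpleGraph V} {n : ℕ} (hn : n < 6) {f : ℤ → V}
    (hper : ∀ i, f (i + n) = f i) (hadj : ∀ i, G.Adj (f i) (f (i + 1)))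
    (h2 : ∀ i, f i ≠ f (i + 2) ∧ ¬ G.Adj (f i) (f (i + 2))) : IsoCyc G n f := by
  refine ⟨hper, hadj, ?_⟩
  intro i k hk
  have hk' : k ≤ 2 := by omega
  interval_cases k
  · omega
  · have := dist_eq_one_iff_adj.2 (hadj i)
    push_cast
    omega
  · have hr : G.Reachable (f i) (f (i + 2)) := chain_reach hadj i 2
    exact two_le_dist hr (h2 i).1 (h2 i).2

theorem noC4 {G : SimpleGraph V} (hN : NoIso G) {a b c e : V} (h1 : G.Adj a b) (h2 : G.Adj b c)
    (h3 : G.Adj c e) (h4 : G.Adj e a) (h5 : a ≠ c) (h6 : b ≠ e) (h7 : ¬ G.Adj a c)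
    (h8 : ¬ G.Adj b e) : False := by
  let g : ℕ → V := fun r => if r = 0 then a else if r = 1 then b else if r = 2 then c else e
  refine hN 4 (cycFun 4 g) le_rfl (isoCyc_small (by norm_num) (cycFun_per 4 g) ?_ ?_)
  · apply cycFun_adj (by norm_num)
    · intro r hr
      have : r < 3 := by omega
      interval_cases r <;> simp [g, h1, h2, h3]
    · simp [g, h4]
  · intro i
    obtain ⟨r, hr, h⟩ := cycFun_add (n := 4) (by norm_num) g i
    have e0 := h 0
    have e2 := h 2
    simp only [Nat.cast_zero, add_zero] at e0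
    push_cast at e2
    rw [e0, e2]
    interval_cases r
    · simp [g, h5, h7]
    · simp [g, h6, h8]
    · simpa [g, h5.symm] using fun h => h7 h.symm
    · simpa [g, h6.symm] using fun h => h8 h.symm

theorem noC5 {G : SimpleGraph V} (hN : NoIso G) {a b c e f : V} (h1 : G.Adj a b) (h2 : G.Adj b c)
    (h3 : G.Adj c e) (h4 : G.Adj e f) (h5 : G.Adj f a)
    (k1 : a ≠ c) (k2 : a ≠ e) (k3 : b ≠ e) (k4 : b ≠ f) (k5 : c ≠ f)
    (l1 : ¬ G.Adj a c) (l2 : ¬ G.Adj a e) (l3 : ¬ G.Adj b e) (l4 : ¬ G.Adj b f)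
    (l5 : ¬ G.Adj c f) : False := by
  let g : ℕ → V := fun r => if r = 0 then a else if r = 1 then b else if r = 2 then c else
    if r = 3 then e else f
  refine hN 5 (cycFun 5 g) (by norm_num) (isoCyc_small (by norm_num) (cycFun_per 5 g) ?_ ?_)
  · apply cycFun_adj (by norm_num)
    · intro r hr
      have : r < 4 := by omega
      interval_cases r <;> simp [g, h1, h2, h3, h4]
    · simp [g, h5]
  · intro i
    obtain ⟨r, hr, h⟩ := cycFun_add (n := 5) (by norm_num) g i
    have e0 := h 0
    have e2 := h 2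
    simp only [Nat.cast_zero, add_zero] at e0
    push_cast at e2
    rw [e0, e2]
    interval_cases r
    · simp [g, k1, l1]
    · simp [g, k3, l3]
    · simp [g, k5, l5]
    · simpa [g, k2.symm] using fun h => l2 h.symm
    · simpa [g, k4.symm] using fun h => l4 h.symm

/-- property (I): the neighbours of `v` closer to `u` form a clique -/
def PI (G : SimpleGraph V) (k : ℕ) : Prop :=
  ∀ u v z z', G.dist u v = k → G.Adj z v → G.Adj z' v → G.dist u z + 1 = k →
    G.dist u z' + 1 = k → z = z' ∨ G.Adj z z'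

/-- property (T): triangle condition -/
def PT (G : SimpleGraph V) (k : ℕ) : Prop :=
  ∀ u v w, G.dist u v = k → G.dist u w = k → G.Adj v w →
    ∃ t, G.Adj t v ∧ G.Adj t w ∧ G.dist u t + 1 = k

theorem stepI {G : SimpleGraph V} (hc : G.Connected) (hN : NoIso G) {k : ℕ} (hk : 2 ≤ k)
    (ihI : PI G (k - 1)) (ihT : PT G (k - 1)) {c : ℤ → V}
    (hper : ∀ i, c (i + (2 * k : ℕ)) = c i) (hadj : ∀ i, G.Adj (c i) (c (i + 1))) (s : ℤ)
    (h : G.dist (c s) (c (s + k)) = k ∧ c (s + k - 1) ≠ c (s + k + 1) ∧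
      ¬ G.Adj (c (s + k - 1)) (c (s + k + 1))) :
    G.dist (c (s + 1)) (c (s + 1 + k)) = k ∧ c (s + 1 + k - 1) ≠ c (s + 1 + k + 1) ∧
      ¬ G.Adj (c (s + 1 + k - 1)) (c (s + 1 + k + 1)) := by
  obtain ⟨h0, h1, h2⟩ := h
  have tri : ∀ a b e : V, G.dist a e ≤ G.dist a b + G.dist b e := fun a b e =>
    hc.dist_triangle
  have one : ∀ {a b : V}, G.Adj a b → G.dist a b = 1 := fun h => dist_eq_one_iff_adj.2 h
  have hu : c (s + (2 * k : ℕ)) = c s := hper s
  -- names
  obtain ⟨u, hu'⟩ : ∃ u, u = c s := ⟨_, rfl⟩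
  obtain ⟨p, hp'⟩ : ∃ u, u = c (s + 1) := ⟨_, rfl⟩
  obtain ⟨z, hz'⟩ : ∃ u, u = c (s + k - 1) := ⟨_, rfl⟩
  obtain ⟨v, hv'⟩ : ∃ u, u = c (s + k) := ⟨_, rfl⟩
  obtain ⟨w, hw'⟩ : ∃ u, u = c (s + k + 1) := ⟨_, rfl⟩
  obtain ⟨y, hy'⟩ : ∃ u, u = c (s + k + 2) := ⟨_, rfl⟩
  have aup : G.Adj u p := by rw [hu', hp']; exact hadj s
  have azv : G.Adj z v := by
    have := hadj (s + k - 1)
    rw [hz', hv']
    convert this using 2
    ring
  have avw : G.Adj v w := by rw [hv', hw']; exact hadj _
  have duz : G.dist u z ≤ k - 1 := by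
    rw [hu', hz']
    exact chain_dist hadj _ _ _ (by push_cast [show 1 ≤ k by omega]; ring)
  have dpz : G.dist p z ≤ k - 2 := by
    rw [hp', hz']
    exact chain_dist hadj _ _ _ (by push_cast [hk]; ring)
  have dpv : G.dist p v ≤ k - 1 := by
    rw [hp', hv']
    exact chain_dist hadj _ _ _ (by push_cast [show 1 ≤ k by omega]; ring)
  have duw : G.dist w u ≤ k - 1 := by
    rw [hw', hu', ← hu]
    exact chain_dist hadj _ _ _ (by push_cast [show 1 ≤ k by omega]; ring)
  have duy : G.dist y u ≤ k - 2 := by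
    rw [hy', hu', ← hu]
    exact chain_dist hadj _ _ _ (by push_cast [hk]; ring)
  rw [← hz', ← hw'] at h1 h2
  rw [← hu', ← hv'] at h0
  have e1 : c (s + 1 + k) = w := by rw [hw']; congr 1; ring
  have e2 : c (s + 1 + k - 1) = v := by rw [hv']; congr 1; ring
  have e3 : c (s + 1 + k + 1) = y := by rw [hy']; congr 1; ring
  rw [e1, e2, e3, ← hp']
  rw [dist_comm] at duw duy
  have t1 := tri u z v
  have t2 := tri u w v
  have t3 := tri u p v
  have t4 := tri p z v
  have t5 := tri p v w
  have t6 := tri p w v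
  have o1 := one aup
  have o2 := one azv
  have o3 := one avw
  have o4 := one avw.symm
  refine ⟨?_, ?_, ?_⟩
  · by_contra hne
    have hcase : G.dist p w = k - 2 ∨ G.dist p w = k - 1 := by omega
    have g1 : G.dist p v = k - 1 := by omega
    have g2 : G.dist p z + 1 = k - 1 := by omega
    rcases hcase with hcase | hcase
    · rcases ihI p v z w g1 azv avw.symm g2 (by omega) with h | h
      · exact h1 h
      · exact h2 h
    · obtain ⟨t, a1, a2, a3⟩ := ihT p v w g1 hcase avw
      have a4 : G.Adj t z := by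
        rcases ihI p v t z g1 a1 azv a3 g2 with h | h
        · exact absurd (h ▸ a2) h2
        · exact h
      have s1 := tri u p t
      have s2 := tri u t v
      have s3 := one a1
      have key : ∀ x, G.Adj x z → G.Adj x w → G.dist u x + 2 = k → False := by
        intro x x1 x2 x3
        refine noC4 hN (a := v) (b := z) (c := x) (e := w) azv.symm x1.symm x2 avw.symm ?_ h1 ?_ h2
        · rintro rfl
          omega
        · intro hvx
          have := tri u x v
          have := one hvx.symm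
          omega
      have dut : G.dist u t = k - 1 := by omega
      obtain ⟨a, b1, b2, b3⟩ := ihT u z t (by omega) dut a4.symm
      obtain ⟨b, c1, c2, c3⟩ := ihT u t w dut (by omega) a2
      rcases ihI u t a b dut b2 c1 (by omega) (by omega) with h | h
      · subst h
        exact key a b1 c2 (by omega)
      · have nva : ¬ G.Adj v a := by
          intro hva
          have := tri u a v
          have := one hva.symm
          omega
        have nvb : ¬ G.Adj v b := by
          intro hva
          have := tri u b v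
          have := one hva.symm
          omega
        refine noC5 hN (a := v) (b := z) (c := a) (e := b) (f := w) azv.symm b1.symm h c2
          avw.symm ?_ ?_ ?_ h1 ?_ nva nvb ?_ h2 ?_
        · rintro rfl; omega
        · rintro rfl; omega
        · rintro rfl; omega
        · rintro rfl; omega
        · intro h'
          exact key b h'.symm c2 (by omega)
        · intro h'
          exact key a b1 h' (by omega)
  · rintro rfl
    omega
  · intro h'
    have := tri u y v
    have := one h'.symm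
    omega

theorem stepT {G : SimpleGraph V} (hc : G.Connected) (hN : NoIso G) {k : ℕ} (hk : 2 ≤ k)
    (ihT : PT G (k - 1)) (ihI : PI G k) {c : ℤ → V}
    (hper : ∀ i, c (i + (2 * k + 1 : ℕ)) = c i) (hadj : ∀ i, G.Adj (c i) (c (i + 1))) (s : ℤ)
    (h : G.dist (c s) (c (s + k)) = k ∧ G.dist (c s) (c (s + k + 1)) = k ∧
      ∀ t, G.Adj t (c (s + k)) → G.Adj t (c (s + k + 1)) → k ≤ G.dist (c s) t) :
    G.dist (c (s + 1)) (c (s + 1 + k)) = k ∧ G.dist (c (s + 1)) (c (s + 1 + k + 1)) = k ∧
      ∀ t, G.Adj t (c (s + 1 + k)) → G.Adj t (c (s + 1 + k + 1)) →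
        k ≤ G.dist (c (s + 1)) t := by
  obtain ⟨h0, h1, h2⟩ := h
  have tri : ∀ a b e : V, G.dist a e ≤ G.dist a b + G.dist b e := fun a b e =>
    hc.dist_triangle
  have one : ∀ {a b : V}, G.Adj a b → G.dist a b = 1 := fun h => dist_eq_one_iff_adj.2 h
  have hu : c (s + (2 * k + 1 : ℕ)) = c s := hper s
  obtain ⟨u, hu'⟩ : ∃ u, u = c s := ⟨_, rfl⟩
  obtain ⟨p, hp'⟩ : ∃ u, u = c (s + 1) := ⟨_, rfl⟩
  obtain ⟨v, hv'⟩ : ∃ u, u = c (s + k) := ⟨_, rfl⟩
  obtain ⟨w, hw'⟩ : ∃ u, u = c (s + k + 1) := ⟨_, rfl⟩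
  obtain ⟨q, hq'⟩ : ∃ u, u = c (s + k + 2) := ⟨_, rfl⟩
  have aup : G.Adj u p := by rw [hu', hp']; exact hadj s
  have avw : G.Adj v w := by rw [hv', hw']; exact hadj _
  have awq : G.Adj w q := by
    rw [hw', hq']
    have := hadj (s + k + 1)
    convert this using 2
    ring
  have dpv : G.dist p v ≤ k - 1 := by
    rw [hp', hv']
    exact chain_dist hadj _ _ _ (by push_cast [show 1 ≤ k by omega]; ring)
  have duq : G.dist q u ≤ k - 1 := by
    rw [hq', hu', ← hu]
    exact chain_dist hadj _ _ _ (by push_cast [show 1 ≤ k by omega]; ring)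
  rw [← hu', ← hv'] at h0
  rw [← hu', ← hw'] at h1
  rw [← hu', ← hv', ← hw'] at h2
  have e1 : c (s + 1 + k) = w := by rw [hw']; congr 1; ring
  have e3 : c (s + 1 + k + 1) = q := by rw [hq']; congr 1; ring
  rw [e1, e3, ← hp']
  rw [dist_comm] at duq
  have t1 := tri u p v
  have t2 := tri u q w
  have t3 := tri p v w
  have t4 := tri u p w
  have t5 := tri p u q
  have o1 := one aup
  have o2 := one aup.symm
  have o3 := one avw
  have o5 := one awq
  have o6 := one awq.symm
  have nvq : ¬ G.Adj v q := by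
    intro h
    have := h2 q h.symm awq.symm
    omega
  have vq : v ≠ q := by rintro rfl; omega
  have dpv' : G.dist p v = k - 1 := by omega
  have dpw : G.dist p w = k := by
    by_contra hne
    obtain ⟨t, a1, a2, a3⟩ := ihT p v w dpv' (by omega) avw
    have := h2 t a1 a2
    have := tri u p t
    omega
  have dpq : G.dist p q = k := by
    by_contra hne
    have s1 := tri p q w
    rcases ihI p w v q dpw avw awq.symm (by omega) (by omega) with h | h
    · exact vq h
    · exact nvq h
  refine ⟨dpw, dpq, ?_⟩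
  intro t tw tq
  by_contra hlt
  have s1 := tri p t w
  have s2 := one tw
  have dpt : G.dist p t = k - 1 := by omega
  have avt : G.Adj v t := by
    rcases ihI p w v t dpw avw tw (by omega) (by omega) with h | h
    · exact absurd (h ▸ tq) nvq
    · exact h
  have s3 := h2 t avt.symm tw
  have s4 := tri u q t
  have s5 := one tq.symm
  have dut : G.dist u t = k := by omega
  obtain ⟨x, a1, a2, a3⟩ := ihT p v t dpv' dpt avt
  have s6 := tri u p x
  have s7 := tri u x t
  have s8 := one a2
  have nxw : ¬ G.Adj x w := by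
    intro h
    have := h2 x a1 h
    omega
  have axq : G.Adj x q := by
    rcases ihI u t x q dut a2 tq.symm (by omega) (by omega) with h | h
    · exact absurd (h ▸ a1).symm nvq
    · exact h
  refine noC4 hN (a := v) (b := x) (c := q) (e := w) a1.symm axq awq.symm avw.symm vq ?_ nvq nxw
  rintro rfl
  omega

/-- two paths from the same vertex with adjacent ends form a closed walk -/
theorem two_paths {G : SimpleGraph V} (P Q : ℕ → V) (k l : ℕ) (h0 : P 0 = Q 0)
    (hP : ∀ i, i < k → G.Adj (P i) (P (i + 1))) (hQ : ∀ i, i < l → G.Adj (Q i) (Q (i + 1)))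
    (hPQ : G.Adj (P k) (Q l)) (hl : 1 ≤ l) :
    ∃ c : ℤ → V, (∀ i, c (i + (k + l + 1 : ℕ)) = c i) ∧ (∀ i, G.Adj (c i) (c (i + 1))) ∧
      (∀ i : ℕ, i ≤ k → c i = P i) ∧ c ((k + 1 : ℕ) : ℤ) = Q l := by
  let g : ℕ → V := fun r => if r ≤ k then P r else Q (k + l + 1 - r)
  refine ⟨cycFun (k + l + 1) g, cycFun_per _ _, ?_, ?_, ?_⟩
  · apply cycFun_adj (by omega)
    · intro r hr
      rcases lt_trichotomy r k with h | h | h
      · have : g r = P r := by simp [g, h.le]
        rw [this]
        have : g (r + 1) = P (r + 1) := by simp [g]; omega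
        rw [this]
        exact hP r h
      · subst h
        have : g r = P r := by simp [g]
        rw [this]
        have : g (r + 1) = Q l := by
          simp only [g]
          rw [if_neg (by omega)]
          congr 1
          omega
        rw [this]
        exact hPQ
      · have : g r = Q (k + l + 1 - r) := by simp [g]; omega
        rw [this]
        have : g (r + 1) = Q (k + l + 1 - (r + 1)) := by simp [g]; omega
        rw [this]
        have h3 := hQ (k + l + 1 - (r + 1)) (by omega)
        have h4 : k + l + 1 - (r + 1) + 1 = k + l + 1 - r := by omega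
        rw [h4] at h3
        exact h3.symm
    · have : g (k + l + 1 - 1) = Q 1 := by
        simp only [g]
        rw [if_neg (by omega)]
        congr 1
        omega
      rw [this]
      have : g 0 = Q 0 := by simp [g, h0]
      rw [this]
      exact (hQ 0 (by omega)).symm
  · intro i hi
    rw [cycFun_nat g (by omega)]
    simp [g, hi]
  · rw [cycFun_nat g (by omega)]
    simp only [g]
    rw [if_neg (by omega)]
    congr 1
    omega

theorem exists_geo {G : SimpleGraph V} (hc : G.Connected) (u v : V) :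
    ∃ P : ℕ → V, P 0 = u ∧ P (G.dist u v) = v ∧ ∀ i, i < G.dist u v → G.Adj (P i) (P (i + 1)) := by
  obtain ⟨p, hp⟩ := hc.exists_walk_length_eq_dist u v
  refine ⟨p.getVert, p.getVert_zero, ?_, ?_⟩
  · rw [← hp, p.getVert_length]
  · intro i hi
    exact p.adj_getVert_succ (by omega)

theorem iso_of_conf {G : SimpleGraph V} (hc : G.Connected) {n k : ℕ} (hn : n = 2 * k ∨ n = 2 * k + 1)
    (hk : 1 ≤ k) {c : ℤ → V}
    (hper : ∀ i, c (i + n) = c i) (hadj : ∀ i, G.Adj (c i) (c (i + 1)))
    (h : ∀ s : ℕ, G.dist (c s) (c (s + k)) = k) : IsoCyc G n c := by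
  refine ⟨hper, hadj, ?_⟩
  have hp : Function.Periodic c (n : ℤ) := hper
  have h' : ∀ s : ℤ, G.dist (c s) (c (s + k)) = k := by
    intro s
    have h1 := h (s % n).toNat
    have h2 := Int.emod_nonneg s (show (n : ℤ) ≠ 0 by omega)
    rw [Int.toNat_of_nonneg h2] at h1
    have h3 : ∀ j : ℤ, c (s % n + j) = c (s + j) := by
      intro j
      have h4 := hp.int_mul (s / n) (s % n + j)
      simp only [Int.cast_id] at h4
      rw [← h4]
      congr 1
      have := Int.emod_add_mul_ediv s n
      linarith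
    have h5 := h3 0
    simp only [add_zero] at h5
    rw [h5, h3] at h1
    exact h1
  intro i j hj
  have h1 := h' i
  have h2 : G.dist (c i) (c (i + k)) ≤ G.dist (c i) (c (i + j)) + G.dist (c (i + j)) (c (i + k)) :=
    hc.dist_triangle
  have h3 : G.dist (c (i + j)) (c (i + k)) ≤ k - j :=
    chain_dist hadj _ _ _ (by push_cast [show j ≤ k by omega]; ring)
  omega

theorem PI_PT {G : SimpleGraph V} (hc : G.Connected) (hN : NoIso G) (k : ℕ) : PI G k ∧ PT G k := by
  induction k using Nat.strong_induction_on with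
  | _ k ih =>
  have d0 : ∀ {a b : V}, G.dist a b = 0 → a = b := fun h => hc.dist_eq_zero_iff.1 h
  rcases Nat.lt_or_ge k 2 with hk | hk
  · interval_cases k
    · refine ⟨fun u v z z' _ _ _ h _ => by omega, fun u v w h1 h2 h3 => ?_⟩
      rw [← d0 h1, ← d0 h2] at h3
      exact absurd h3 (G.loopless.irrefl _)
    · refine ⟨fun u v z z' _ _ _ h h' => ?_, fun u v w h1 h2 h3 => ?_⟩
      · left
        rw [← d0 (show G.dist u z = 0 by omega), ← d0 (show G.dist u z' = 0 by omega)]
      · exact ⟨u, dist_eq_one_iff_adj.1 h1, dist_eq_one_iff_adj.1 h2, by simp⟩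
  have hI : PI G k := by
    intro u v z z' h0 h1 h2 h3 h4
    by_contra hcon
    push Not at hcon
    obtain ⟨P, P0, P1, P2⟩ := exists_geo hc u z
    obtain ⟨Q, Q0, Q1, Q2⟩ := exists_geo hc u z'
    have e1 : G.dist u z = k - 1 := by omega
    have e2 : G.dist u z' = k - 1 := by omega
    rw [e1] at P1 P2
    rw [e2] at Q1 Q2
    let P' : ℕ → V := fun i => if i < k then P i else v
    have hP' : ∀ i, i < k → G.Adj (P' i) (P' (i + 1)) := by
      intro i hi
      by_cases h : i + 1 < k
      · simp only [P', hi, h, if_true]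
        exact P2 i (by omega)
      · simp only [P', hi, h, if_true, if_false]
        have : i = k - 1 := by omega
        rw [this, P1]
        exact h1
    have hPk : P' k = v := by simp [P']
    obtain ⟨c, c1, c2, c3, c4⟩ := two_paths (G := G) P' Q k (k - 1) (by
      simp only [P']
      rw [if_pos (by omega), P0, Q0]) hP' Q2 (by rw [hPk, Q1]; exact h2.symm) (by omega)
    have hn : k + (k - 1) + 1 = 2 * k := by omega
    rw [hn] at c1
    refine hN (2 * k) c (by omega) (iso_of_conf hc (k := k) (Or.inl rfl) (by omega) c1 c2 ?_)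
    have key : ∀ s : ℕ, G.dist (c s) (c (s + k)) = k ∧ c (s + k - 1) ≠ c (s + k + 1) ∧
      ¬ G.Adj (c (s + k - 1)) (c (s + k + 1)) := by
      intro s
      induction s with
      | zero =>
        have g1 : c ((0 : ℕ) : ℤ) = u := by
          rw [c3 0 (by omega)]
          simp only [P']
          rw [if_pos (by omega), P0]
        have g2 : c (((0 : ℕ) : ℤ) + k) = v := by
          have := c3 k le_rfl
          rw [hPk] at this
          simpa using this
        have g3 : c (((0 : ℕ) : ℤ) + k - 1) = z := by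
          have := c3 (k - 1) (by omega)
          simp only [P'] at this
          rw [if_pos (by omega), P1] at this
          rw [← this]
          congr 1
          push_cast [show 1 ≤ k by omega]
          ring
        have g4 : c (((0 : ℕ) : ℤ) + k + 1) = z' := by
          rw [← Q1, ← c4]
          congr 1
          push_cast
          ring
        rw [g1, g2, g3, g4]
        exact ⟨h0, hcon.1, hcon.2⟩
      | succ s ihs =>
        have := stepI hc hN hk (ih (k - 1) (by omega)).1 (ih (k - 1) (by omega)).2 c1 c2 s ihs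
        push_cast
        exact this
    exact fun s => (key s).1
  refine ⟨hI, ?_⟩
  intro u v w h0 h1 h2
  by_contra hcon
  push Not at hcon
  obtain ⟨P, P0, P1, P2⟩ := exists_geo hc u v
  obtain ⟨Q, Q0, Q1, Q2⟩ := exists_geo hc u w
  rw [h0] at P1 P2
  rw [h1] at Q1 Q2
  obtain ⟨c, c1, c2, c3, c4⟩ := two_paths (G := G) P Q k k (by rw [P0, Q0]) P2 Q2
    (by rw [P1, Q1]; exact h2) (by omega)
  have hn : k + k + 1 = 2 * k + 1 := by omega
  rw [hn] at c1
  refine hN (2 * k + 1) c (by omega) (iso_of_conf hc (k := k) (Or.inr rfl) (by omega) c1 c2 ?_)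
  have key : ∀ s : ℕ, G.dist (c s) (c (s + k)) = k ∧ G.dist (c s) (c (s + k + 1)) = k ∧
      ∀ t, G.Adj t (c (s + k)) → G.Adj t (c (s + k + 1)) → k ≤ G.dist (c s) t := by
    intro s
    induction s with
    | zero =>
      have g1 : c ((0 : ℕ) : ℤ) = u := by
        rw [c3 0 (by omega), P0]
      have g2 : c (((0 : ℕ) : ℤ) + k) = v := by
        have := c3 k le_rfl
        rw [P1] at this
        simpa using this
      have g4 : c (((0 : ℕ) : ℤ) + k + 1) = w := by
        rw [← Q1, ← c4]
        congr 1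
        push_cast
        ring
      rw [g1, g2, g4]
      refine ⟨h0, h1, ?_⟩
      intro t t1 t2
      have := hcon t t1 t2
      have h5 : G.dist u v ≤ G.dist u t + G.dist t v := hc.dist_triangle
      have h6 := dist_eq_one_iff_adj.2 t1
      omega
    | succ s ihs =>
      have := stepT hc hN hk (ih (k - 1) (by omega)).2 hI c1 c2 s ihs
      push_cast
      exact this
  exact fun s => (key s).1

end Pool.Agent.H233R2.Bridged
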