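import Mathlib
import Pool.Agent.H233R2.Bridged1

set_option autoImplicit false

open SimpleGraph

namespace Pool.Agent.H233R2.Bridged

universe u
variable {V : Type u}

theorem chain_walk' {G : SimpleGraph V} {f : ℤ → V} (h : ∀ i, G.Adj (f i) (f (i + 1)))
    (k : ℕ) : ∀ i : ℤ, ∃ p : G.Walk (f i) (f (i + k)), p.length = k ∧
      ∀ j : ℕ, j ≤ k → p.getVert j = f (i + j) := by
  induction k with
  | zero =>
    intro i
    refine ⟨SimpleGraph.Walk.nil.copy rfl (by simp), by simp, ?_⟩
    intro j hj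
    have : j = 0 := by omega
    subst this
    simp
  | succ k ih =>
    intro i
    obtain ⟨p, hp, hv⟩ := ih (i + 1)
    refine ⟨(SimpleGraph.Walk.cons (h i) p).copy rfl (by push_cast; congr 1; ring), by simp [hp], ?_⟩
    intro j hj
    rw [SimpleGraph.Walk.getVert_copy]
    rcases j with _ | j
    · simp
    · rw [SimpleGraph.Walk.getVert_cons_succ, hv j (by omega)]
      push_cast
      congr 1
      ring

/-- the shortcut property of the question -/
def Brg (G : SimpleGraph V) : Prop :=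
  ∀ (u : V) (c : G.Walk u u), c.IsCycle → 4 ≤ c.length →
        ∃ i j : ℕ, i ≤ j ∧ j < c.length ∧
          G.dist (c.getVert i) (c.getVert j) < min (j - i) (c.length - (j - i))

theorem IsoCyc.dist_ge {G : SimpleGraph V} {n : ℕ} {f : ℤ → V} (hf : IsoCyc G n f) {i j : ℕ}
    (hij : i ≤ j) (hj : j ≤ i + n) : min (j - i) (n - (j - i)) ≤ G.dist (f i) (f j) := by
  by_cases h : 2 * (j - i) ≤ n
  · have h1 := hf.iso i (j - i) h
    have h2 : (i : ℤ) + ((j - i : ℕ) : ℤ) = j := by push_cast [hij]; ring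
    rw [h2] at h1
    exact (min_le_left _ _).trans h1
  · have h1 := hf.iso j (n - (j - i)) (by omega)
    have h2 : (j : ℤ) + ((n - (j - i) : ℕ) : ℤ) = i + n := by
      rw [Nat.cast_sub (by omega), Nat.cast_sub hij]
      ring
    rw [h2, hf.per, dist_comm] at h1
    exact (min_le_right _ _).trans h1

theorem Brg.noIso {G : SimpleGraph V} (hG : Brg G) : NoIso G := by
  intro n f hn hf
  obtain ⟨p, hp, hv⟩ := chain_walk' hf.adj n 0
  have e0 : f (0 + n) = f 0 := hf.per 0
  let c : G.Walk (f 0) (f 0) := p.copy rfl e0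
  have hc : c.length = n := by simp [c, hp]
  have hcv : ∀ j : ℕ, j ≤ n → c.getVert j = f j := by
    intro j hj
    simp only [c, SimpleGraph.Walk.getVert_copy]
    rw [hv j hj]
    simp
  have hinj : ∀ a b : ℕ, 1 ≤ a → a < b → b ≤ n → f a ≠ f b := by
    intro a b ha hab hb he
    have h1 := hf.dist_ge (i := a) (j := b) hab.le (by omega)
    rw [he] at h1
    simp only [dist_self, nonpos_iff_eq_zero] at h1
    omega
  have hcyc : c.IsCycle := by
    rw [SimpleGraph.Walk.isCycle_iff_isPath_tail_and_le_length]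
    refine ⟨?_, by omega⟩
    rw [← SimpleGraph.Walk.IsPath.getVert_injOn_iff]
    have hl : c.tail.length + 1 = c.length := by
      apply SimpleGraph.Walk.length_tail_add_one
      intro hnil
      have := SimpleGraph.Walk.length_eq_zero_iff.2 hnil
      omega
    intro a ha b hb hab
    simp only [Set.mem_ofPred_eq] at ha hb
    rw [SimpleGraph.Walk.getVert_tail, SimpleGraph.Walk.getVert_tail, hcv _ (by omega),
      hcv _ (by omega)] at hab
    rcases lt_trichotomy a b with h | h | h
    · exact absurd hab (hinj (a + 1) (b + 1) (by omega) (by omega) (by omega))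
    · exact h
    · exact absurd hab.symm (hinj (b + 1) (a + 1) (by omega) (by omega) (by omega))
  obtain ⟨i, j, hij, hj, hlt⟩ := hG (f 0) c hcyc (by omega)
  rw [hc] at hj hlt
  rw [hcv i (by omega), hcv j (by omega)] at hlt
  have := hf.dist_ge (i := i) (j := j) hij (by omega)
  omega

/-- the graph induced on `T`, on the same vertex set -/
def res (G : SimpleGraph V) (T : Set V) : SimpleGraph V where
  Adj a b := G.Adj a b ∧ a ∈ T ∧ b ∈ T
  symm := ⟨fun _ _ h => ⟨h.1.symm, h.2.2, h.2.1⟩⟩
  loopless := ⟨fun a h => G.loopless.irrefl a h.1⟩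

theorem res_walk {G : SimpleGraph V} {T : Set V} {a b : V} (p : (res G T).Walk a b) :
    ∀ (ha : a ∈ T) (hb : b ∈ T), ∃ q : (G.induce T).Walk ⟨a, ha⟩ ⟨b, hb⟩, q.length = p.length := by
  induction p with
  | nil => intro ha hb; exact ⟨SimpleGraph.Walk.nil, rfl⟩
  | cons h p ih =>
    intro ha hb
    obtain ⟨q, hq⟩ := ih h.2.2 hb
    refine ⟨SimpleGraph.Walk.cons (by simpa using h.1) q, by simp [hq]⟩

theorem brg_induce {G : SimpleGraph V} {T : Set V} (h : NoIso (res G T)) : Brg (G.induce T) := by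
  intro u c hc hn
  by_contra hcon
  push Not at hcon
  obtain ⟨n, hn'⟩ : ∃ n, n = c.length := ⟨_, rfl⟩
  rw [← hn'] at hn hcon
  let g : ℕ → V := fun r => (c.getVert r).1
  have hadj : ∀ i, (res G T).Adj (cycFun n g i) (cycFun n g (i + 1)) := by
    apply cycFun_adj (by omega)
    · intro r hr
      have h1 := c.adj_getVert_succ (i := r) (by omega)
      exact ⟨by simpa using h1, (c.getVert r).2, (c.getVert (r + 1)).2⟩
    · have h1 := c.adj_getVert_succ (i := n - 1) (by omega)
      have h2 : n - 1 + 1 = c.length := by omega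
      rw [h2, c.getVert_length] at h1
      refine ⟨?_, (c.getVert _).2, (c.getVert _).2⟩
      simp only [g, c.getVert_zero]
      simpa using h1
  refine h n (cycFun n g) hn ⟨cycFun_per n g, hadj, ?_⟩
  intro i k hk
  obtain ⟨r, hr, hr'⟩ := cycFun_add (n := n) (by omega) g i
  have e0 := hr' 0
  simp only [Nat.cast_zero, add_zero] at e0
  rw [Nat.mod_eq_of_lt hr] at e0
  have hreach := chain_reach hadj i k
  rw [e0, hr' k] at hreach
  obtain ⟨p, hp⟩ := hreach.exists_walk_length_eq_dist
  obtain ⟨q, hq⟩ := res_walk p (c.getVert r).2 (c.getVert ((r + k) % n)).2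
  have h1 : (G.induce T).dist (c.getVert r) (c.getVert ((r + k) % n)) ≤ q.length :=
    SimpleGraph.dist_le q
  rw [e0, hr' k, ← hp, ← hq]
  refine le_trans ?_ h1
  by_cases h2 : r + k < n
  · rw [Nat.mod_eq_of_lt h2]
    have h3 := hcon r (r + k) (by omega) h2
    omega
  · have h3 : (r + k) % n = r + k - n := by
      rw [Nat.mod_eq_sub_mod (by omega), Nat.mod_eq_of_lt (by omega)]
    rw [h3, dist_comm]
    have h4 := hcon (r + k - n) r (by omega) hr
    omega

/-! ### transfer to disconnected graphs -/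

theorem comp_walk {G : SimpleGraph V} {s : Set V} (hs : ∀ a b, G.Adj a b → a ∈ s → b ∈ s)
    {a b : V} (p : G.Walk a b) :
    ∀ (ha : a ∈ s) (hb : b ∈ s), ∃ q : (G.induce s).Walk ⟨a, ha⟩ ⟨b, hb⟩, q.length = p.length := by
  induction p with
  | nil => intro ha hb; exact ⟨SimpleGraph.Walk.nil, rfl⟩
  | cons h p ih =>
    intro ha hb
    obtain ⟨q, hq⟩ := ih (hs _ _ h ha) hb
    refine ⟨SimpleGraph.Walk.cons (by simpa using h) q, by simp [hq]⟩

theorem comp_dist {G : SimpleGraph V} {s : Set V} (hs : ∀ a b, G.Adj a b → a ∈ s → b ∈ s)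
    (hr : ∀ a b, a ∈ s → b ∈ s → G.Reachable a b) (a b : s) :
    (G.induce s).dist a b = G.dist a.1 b.1 := by
  obtain ⟨p, hp⟩ := (hr a b a.2 b.2).exists_walk_length_eq_dist
  obtain ⟨q, hq⟩ := comp_walk hs p a.2 b.2
  have h1 : (G.induce s).dist a b ≤ q.length := SimpleGraph.dist_le q
  apply le_antisymm
  · omega
  · have hreach : (G.induce s).Reachable a b := ⟨q⟩
    obtain ⟨p', hp'⟩ := hreach.exists_walk_length_eq_dist
    rw [← hp']
    have := SimpleGraph.dist_le (p'.map (SimpleGraph.Embedding.induce s).toHom)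
    rw [SimpleGraph.Walk.length_map] at this
    exact this

theorem comp_connected {G : SimpleGraph V} (u : V) :
    (G.induce {x | G.Reachable u x}).Connected := by
  have hs : ∀ a b, G.Adj a b → a ∈ {x | G.Reachable u x} → b ∈ {x | G.Reachable u x} :=
    fun a b hab ha => SimpleGraph.Reachable.trans ha hab.reachable
  have : Nonempty ({x | G.Reachable u x} : Set V) := ⟨⟨u, SimpleGraph.Reachable.refl u⟩⟩
  refine ⟨?_⟩
  intro a b
  have ha : G.Reachable u a := a.2
  have hb : G.Reachable u b := b.2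
  obtain ⟨p⟩ := ha.symm.trans hb
  obtain ⟨q, -⟩ := comp_walk hs p a.2 b.2
  exact ⟨q⟩

theorem comp_noIso {G : SimpleGraph V} (hN : NoIso G) (u : V) :
    NoIso (G.induce {x | G.Reachable u x}) := by
  have hs : ∀ a b, G.Adj a b → a ∈ {x | G.Reachable u x} → b ∈ {x | G.Reachable u x} :=
    fun a b hab ha => SimpleGraph.Reachable.trans ha hab.reachable
  have hr : ∀ a b, a ∈ {x | G.Reachable u x} → b ∈ {x | G.Reachable u x} → G.Reachable a b :=
    fun a b ha hb => SimpleGraph.Reachable.trans (SimpleGraph.Reachable.symm ha) hb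
  intro n f hn hf
  refine hN n (fun i => (f i).1) hn ⟨fun i => by rw [hf.per], fun i => by simpa using hf.adj i, ?_⟩
  intro i k hk
  have := hf.iso i k hk
  rwa [comp_dist hs hr] at this

theorem PI_gen {G : SimpleGraph V} (hN : NoIso G) {u v z z' : V} (hr : G.Reachable u v) {k : ℕ}
    (h0 : G.dist u v = k) (h1 : G.Adj z v) (h2 : G.Adj z' v) (h3 : G.dist u z + 1 = k)
    (h4 : G.dist u z' + 1 = k) : z = z' ∨ G.Adj z z' := by
  have hs : ∀ a b, G.Adj a b → a ∈ {x | G.Reachable u x} → b ∈ {x | G.Reachable u x} :=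
    fun a b hab ha => SimpleGraph.Reachable.trans ha hab.reachable
  have hr' : ∀ a b, a ∈ {x | G.Reachable u x} → b ∈ {x | G.Reachable u x} → G.Reachable a b :=
    fun a b ha hb => SimpleGraph.Reachable.trans (SimpleGraph.Reachable.symm ha) hb
  have hd := comp_dist hs hr'
  have := (PI_PT (comp_connected (G := G) u) (comp_noIso hN u) k).1
    ⟨u, SimpleGraph.Reachable.refl u⟩ ⟨v, hr⟩ ⟨z, hs _ _ h1.symm hr⟩ ⟨z', hs _ _ h2.symm hr⟩
    (by rw [hd]; exact h0) (by simpa using h1) (by simpa using h2) (by rw [hd]; exact h3)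
    (by rw [hd]; exact h4)
  rcases this with h | h
  · left
    simpa using h
  · right
    simpa using h

theorem PT_gen {G : SimpleGraph V} (hN : NoIso G) {u v w : V} (hr : G.Reachable u v) {k : ℕ}
    (h0 : G.dist u v = k) (h1 : G.dist u w = k) (h2 : G.Adj v w) :
    ∃ t, G.Adj t v ∧ G.Adj t w ∧ G.dist u t + 1 = k := by
  have hs : ∀ a b, G.Adj a b → a ∈ {x | G.Reachable u x} → b ∈ {x | G.Reachable u x} :=
    fun a b hab ha => SimpleGraph.Reachable.trans ha hab.reachable
  have hr' : ∀ a b, a ∈ {x | G.Reachable u x} → b ∈ {x | G.Reachable u x} → G.Reachable a b :=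
    fun a b ha hb => SimpleGraph.Reachable.trans (SimpleGraph.Reachable.symm ha) hb
  have hd := comp_dist hs hr'
  obtain ⟨t, t1, t2, t3⟩ := (PI_PT (comp_connected (G := G) u) (comp_noIso hN u) k).2
    ⟨u, SimpleGraph.Reachable.refl u⟩ ⟨v, hr⟩ ⟨w, hs _ _ h2 hr⟩
    (by rw [hd]; exact h0) (by rw [hd]; exact h1) (by simpa using h2)
  rw [hd] at t3
  exact ⟨t.1, by simpa using t1, by simpa using t2, t3⟩

end Pool.Agent.H233R2.Bridged
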