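import Mathlib
import Pool.Agent.H233R2.Bridged2

set_option autoImplicit false

open SimpleGraph

namespace Pool.Agent.H233R2.Bridged

universe u
variable {V : Type u}

/-- representative of the connected component -/
noncomputable def rep (G : SimpleGraph V) (v : V) : V := (G.connectedComponentMk v).out

theorem rep_reach (G : SimpleGraph V) (v : V) : G.Reachable (rep G v) v := by
  have h : G.connectedComponentMk (rep G v) = G.connectedComponentMk v := Quot.out_eq _
  exact SimpleGraph.ConnectedComponent.exact h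

theorem rep_adj {G : SimpleGraph V} {v w : V} (h : G.Adj v w) : rep G v = rep G w := by
  unfold rep
  rw [SimpleGraph.ConnectedComponent.connectedComponentMk_eq_of_adj h]

/-- the level of a vertex -/
noncomputable def lev (G : SimpleGraph V) (v : V) : ℕ := G.dist (rep G v) v

theorem lev_adj {G : SimpleGraph V} {v w : V} (h : G.Adj v w) : lev G w ≤ lev G v + 1 := by
  unfold lev
  rw [← rep_adj h]
  have h1 := (rep_reach G v).dist_triangle_left w
  rw [dist_eq_one_iff_adj.2 h] at h1
  exact h1

theorem lev_zero {G : SimpleGraph V} {v : V} (h : lev G v = 0) : v = rep G v := by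
  unfold lev at h
  exact ((rep_reach G v).dist_eq_zero_iff.1 h).symm

theorem exists_down {G : SimpleGraph V} {v : V} {k : ℕ} (h : lev G v = k + 1) :
    ∃ z, G.Adj v z ∧ lev G z = k := by
  obtain ⟨p, hp⟩ := (rep_reach G v).exists_walk_length_eq_dist
  have hp' : p.length = k + 1 := hp.trans h
  have h1 : p.length - 1 < p.length := by omega
  have h2 := p.adj_getVert_succ h1
  have h3 : p.length - 1 + 1 = p.length := by omega
  rw [h3, p.getVert_length] at h2
  refine ⟨p.getVert (p.length - 1), h2.symm, ?_⟩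
  have h4 := lev_adj h2
  have h5 : lev G (p.getVert (p.length - 1)) ≤ k := by
    have h6 := SimpleGraph.dist_le (p.take (p.length - 1))
    have h7 : (p.take (p.length - 1)).length ≤ p.length - 1 := by
      simp
    unfold lev
    rw [rep_adj h2]
    omega
  omega

open Classical in
/-- the least element of the set of the neighbours of `v` on level `k` -/
noncomputable def fth (G : SimpleGraph V) (k : ℕ) (R : V → V → Prop) (hR : WellFounded R) (v : V) :
    V :=
  if h : {z | G.Adj v z ∧ lev G z = k}.Nonempty then hR.min _ h else v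

/-- the order on the levels -/
noncomputable def ord (G : SimpleGraph V) : ℕ → {R : V → V → Prop // IsWellOrder V R}
  | 0 => ⟨WellOrderingRel, inferInstance⟩
  | k + 1 =>
    let R := (ord G k).1
    have hR := (ord G k).2
    let e : V ↪ V × V := ⟨fun v => (fth G k R hR.wf v, v), fun _ _ h => (Prod.ext_iff.1 h).2⟩
    ⟨e ⁻¹'o (Prod.Lex R WellOrderingRel), (RelEmbedding.preimage e _).isWellOrder⟩

/-- the father of a vertex on level `k + 1` -/
noncomputable def fa (G : SimpleGraph V) (k : ℕ) (v : V) : V :=
  fth G k (ord G k).1 (ord G k).2.wf v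

theorem fa_spec {G : SimpleGraph V} {k : ℕ} {v : V} (h : lev G v = k + 1) :
    G.Adj v (fa G k v) ∧ lev G (fa G k v) = k ∧
      ∀ z, G.Adj v z → lev G z = k → ¬ (ord G k).1 z (fa G k v) := by
  have hne : {z | G.Adj v z ∧ lev G z = k}.Nonempty := exists_down h
  have h1 : fa G k v = (ord G k).2.wf.min _ hne := by
    unfold fa fth
    rw [dif_pos hne]
  rw [h1]
  have h2 := (ord G k).2.wf.min_mem _ hne
  refine ⟨h2.1, h2.2, ?_⟩
  intro z hz hz'
  exact (ord G k).2.wf.not_lt_min {z | G.Adj v z ∧ lev G z = k} (And.intro hz hz')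

theorem ord_succ {G : SimpleGraph V} {k : ℕ} {w v : V} (h : (ord G (k + 1)).1 w v) :
    (ord G k).1 (fa G k w) (fa G k v) ∨ fa G k w = fa G k v := by
  have h' : Prod.Lex (ord G k).1 WellOrderingRel (fa G k w, w) (fa G k v, v) := h
  rw [Prod.lex_def] at h'
  rcases h' with h' | h'
  · exact Or.inl h'
  · exact Or.inr h'.1

theorem lev_ne {G : SimpleGraph V} {a b : V} (h : lev G a ≠ lev G b) : a ≠ b := by
  rintro rfl
  exact h rfl

theorem lev_nadj {G : SimpleGraph V} {a b : V} (h : lev G a + 2 ≤ lev G b) : ¬ G.Adj a b := by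
  intro hab
  have := lev_adj hab
  omega

theorem lev_I {G : SimpleGraph V} (hN : NoIso G) {v z z' : V} {k : ℕ} (h0 : lev G v = k + 1)
    (h1 : G.Adj v z) (h2 : G.Adj v z') (h3 : lev G z = k) (h4 : lev G z' = k) :
    z = z' ∨ G.Adj z z' := by
  have r1 := rep_adj h1
  have r2 := rep_adj h2
  unfold lev at h0 h3 h4
  rw [← r1] at h3
  rw [← r2] at h4
  exact PI_gen hN (rep_reach G v) h0 h1.symm h2.symm (by omega) (by omega)

theorem lev_T {G : SimpleGraph V} (hN : NoIso G) {v w : V} {k : ℕ} (h0 : lev G v = k + 1)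
    (h1 : lev G w = k + 1) (h2 : G.Adj v w) : ∃ t, G.Adj t v ∧ G.Adj t w ∧ lev G t = k := by
  have r1 := rep_adj h2
  unfold lev at h0 h1
  rw [← r1] at h1
  obtain ⟨t, t1, t2, t3⟩ := PT_gen hN (rep_reach G v) h0 h1 h2
  refine ⟨t, t1, t2, ?_⟩
  unfold lev
  rw [rep_adj t1]
  omega

theorem dom {G : SimpleGraph V} (hN : NoIso G) (k : ℕ) : ∀ v w, lev G v = k + 1 →
    lev G w = k + 1 → G.Adj v w → (ord G (k + 1)).1 w v → G.Adj w (fa G k v) := by
  induction k with
  | zero =>
    intro v w hv hw hvw _
    obtain ⟨h1, h2, _⟩ := fa_spec hv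
    obtain ⟨h3, h4, _⟩ := fa_spec hw
    have e1 := lev_zero h2
    have e2 := lev_zero h4
    rw [← rep_adj h1] at e1
    rw [← rep_adj h3, ← rep_adj hvw, ← e1] at e2
    rw [← e2]
    exact h3
  | succ k ih =>
    intro v w hv hw hvw hlt
    obtain ⟨z1, z2, z3⟩ := fa_spec hv
    obtain ⟨y1, y2, y3⟩ := fa_spec hw
    obtain ⟨z, hz⟩ : ∃ z, z = fa G (k + 1) v := ⟨_, rfl⟩
    obtain ⟨y, hy⟩ : ∃ z, z = fa G (k + 1) w := ⟨_, rfl⟩
    have ho := ord_succ hlt
    rw [← hz] at z1 z2 z3 ho ⊢
    rw [← hy] at y1 y2 y3 ho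
    rcases ho with ho | ho
    swap
    · rw [← ho]
      exact y1
    have := (ord G (k + 1)).2
    by_contra hwz
    have nvy : ¬ G.Adj v y := fun h => z3 y h y2 ho
    obtain ⟨t, tv, tw, tl⟩ := lev_T hN hv hw hvw
    have tz : t ≠ z := by
      rintro rfl
      exact hwz tw.symm
    have ty : t ≠ y := by
      rintro rfl
      exact nvy tv.symm
    have atz : G.Adj t z := (lev_I hN hv tv.symm z1 tl z2).resolve_left tz
    have aty : G.Adj t y := (lev_I hN hw tw.symm y1 tl y2).resolve_left ty
    have zy : y ≠ z := by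
      rintro rfl
      exact (irrefl_of (ord G (k + 1)).1 y) ho
    have nyz : ¬ G.Adj y z := by
      intro h
      exact noC4 hN (a := w) (b := y) (c := z) (e := v) y1 h z1.symm hvw
        (lev_ne (G := G) (by omega)) (lev_ne (G := G) (by omega)) hwz (fun h => nvy h.symm)
    have rzt : (ord G (k + 1)).1 z t := by
      rcases trichotomous_of (ord G (k + 1)).1 z t with h | h | h
      · exact h
      · exact absurd h.symm tz
      · exact absurd h (z3 t tv.symm tl)
    have ryt : (ord G (k + 1)).1 y t := by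
      rcases trichotomous_of (ord G (k + 1)).1 y t with h | h | h
      · exact h
      · exact absurd h.symm ty
      · exact absurd h (y3 t tw.symm tl)
    have hzx := ih t z tl z2 atz rzt
    have hyx := ih t y tl y2 aty ryt
    obtain ⟨x1, x2, x3⟩ := fa_spec tl
    exact noC5 hN (a := w) (b := y) (c := fa G k t) (e := z) (f := v) y1 hyx hzx.symm z1.symm hvw
      (lev_ne (G := G) (by omega)) (lev_ne (G := G) (by omega)) zy (lev_ne (G := G) (by omega)) (lev_ne (G := G) (by omega))
      (fun h => lev_nadj (by omega) h.symm) hwz nyz (fun h => nvy h.symm) (lev_nadj (by omega))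

/-- a well-ordered dismantling of a bridged graph -/
theorem exists_dismantling {G : SimpleGraph V} (hN : NoIso G) :
    ∃ (rk : V → ℕ ×ₗ Ordinal.{u}) (f : V → V), Function.Injective rk ∧
      ∀ v a, G.Adj a v → rk a < rk v →
        rk (f v) < rk v ∧ G.Adj (f v) v ∧ (a = f v ∨ G.Adj a (f v)) := by
  have hwo : ∀ k, IsWellOrder V (ord G k).1 := fun k => (ord G k).2
  let rk : V → ℕ ×ₗ Ordinal.{u} := fun v =>
    toLex (lev G v, @Ordinal.typein V (ord G (lev G v)).1 (hwo _) v)
  refine ⟨rk, fun v => fa G (lev G v - 1) v, ?_, ?_⟩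
  · intro a b h
    have h' := toLex_inj.1 h
    rw [Prod.mk.injEq] at h'
    obtain ⟨h1, h2⟩ := h'
    have := hwo (lev G b)
    rw [h1] at h2
    exact Ordinal.typein_injective _ h2
  · intro v a hav hlt
    have hlt' : lev G a < lev G v ∨ lev G a = lev G v ∧
        @Ordinal.typein V (ord G (lev G a)).1 (hwo _) a <
          @Ordinal.typein V (ord G (lev G v)).1 (hwo _) v := by
      have := Prod.Lex.toLex_lt_toLex.1 hlt
      simpa using this
    have hv0 : lev G v ≠ 0 := by
      intro h0
      have ha0 : lev G a = 0 := by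
        rcases hlt' with h | h
        · omega
        · omega
      have e1 := lev_zero h0
      have e2 := lev_zero ha0
      rw [rep_adj hav, ← e1] at e2
      exact hav.ne e2
    obtain ⟨k, hk⟩ := Nat.exists_eq_succ_of_ne_zero hv0
    obtain ⟨h1, h2, h3⟩ := fa_spec hk
    have hk' : lev G v - 1 = k := by omega
    simp only [hk']
    refine ⟨?_, h1.symm, ?_⟩
    · apply Prod.Lex.toLex_lt_toLex.2
      left
      simp only
      omega
    · rcases hlt' with h | ⟨h, h'⟩
      · have hav' := lev_adj hav
        exact lev_I hN hk hav.symm h1 (by omega) h2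
      · right
        have hak : lev G a = k + 1 := by omega
        have := hwo (lev G v)
        have h4 : (ord G (lev G v)).1 a v := by
          rw [h] at h'
          exact (Ordinal.typein_lt_typein _).1 h'
        rw [hk] at h4
        exact dom hN k v a hk hak hav.symm h4

end Pool.Agent.H233R2.Bridged
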