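import Mathlib
import Pool.Agent.H233R2.Bridged3

set_option autoImplicit false

open SimpleGraph

namespace Pool.Agent.H233R2.Bridged

universe u
variable {V : Type u}

theorem res_mono {G : SimpleGraph V} {T T' : Set V} (h : T' ⊆ T) : res G T' ≤ res G T :=
  fun _ _ hab => ⟨hab.1, h hab.2.1, h hab.2.2⟩

theorem IsoCyc.shift {G : SimpleGraph V} {n : ℕ} {f : ℤ → V} (hf : IsoCyc G n f) (s : ℤ) :
    IsoCyc G n (fun i => f (i + s)) := by
  refine ⟨fun i => ?_, fun i => ?_, fun i k hk => ?_⟩
  · have := hf.per (i + s)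
    rw [← this]
    congr 1
    ring
  · have := hf.adj (i + s)
    convert this using 2
    ring
  · have := hf.iso (i + s) k hk
    convert this using 3
    ring

theorem IsoCyc.neg {G : SimpleGraph V} {n : ℕ} {f : ℤ → V} (hf : IsoCyc G n f) :
    IsoCyc G n (fun i => f (-i)) := by
  refine ⟨fun i => ?_, fun i => ?_, fun i k hk => ?_⟩
  · have := hf.per (-(i + n))
    rw [← this]
    congr 1
    ring
  · have := (hf.adj (-(i + 1))).symm
    convert this using 2
    ring
  · have := hf.iso (-(i + k)) k hk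
    rw [dist_comm] at this
    convert this using 3
    ring

theorem IsoCyc.dist_ge' {G : SimpleGraph V} {n : ℕ} {f : ℤ → V} (hf : IsoCyc G n f) (i : ℤ)
    (m : ℕ) (hm : m ≤ n) : min m (n - m) ≤ G.dist (f i) (f (i + m)) := by
  by_cases h : 2 * m ≤ n
  · exact (min_le_left _ _).trans (hf.iso i m h)
  · have h1 := hf.iso (i + m) (n - m) (by omega)
    have h2 : (i : ℤ) + m + ((n - m : ℕ) : ℤ) = i + n := by
      rw [Nat.cast_sub hm]
      ring
    rw [h2, hf.per, dist_comm] at h1
    exact (min_le_right _ _).trans h1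

theorem seg {G : SimpleGraph V} {T : Set V} {v : V} {f : ℤ → V}
    (hadj : ∀ i, (res G T).Adj (f i) (f (i + 1))) (m : ℕ) :
    ∀ i : ℤ, (∀ j : ℕ, j ≤ m → f (i + j) ≠ v) →
      ∃ p : (res G (T \ {v})).Walk (f i) (f (i + m)), p.length = m := by
  induction m with
  | zero =>
    intro i _
    exact ⟨SimpleGraph.Walk.nil.copy rfl (by simp), by simp⟩
  | succ m ih =>
    intro i hi
    obtain ⟨p, hp⟩ := ih i (fun j hj => hi j (by omega))
    have h1 := hadj (i + m)
    have h2 := hi m (by omega)
    have h3 := hi (m + 1) (by omega)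
    push_cast at h3
    rw [← add_assoc] at h3
    have h4 : (res G (T \ {v})).Adj (f (i + m)) (f (i + m + 1)) :=
      ⟨h1.1, ⟨h1.2.1, h2⟩, ⟨h1.2.2, h3⟩⟩
    exact ⟨(p.concat h4).copy rfl (by push_cast; rw [add_assoc]), by simp [hp]⟩

theorem elim_core2 {G : SimpleGraph V} (hN : NoIso G) {T : Set V} {v : V}
    (hT' : NoIso (res G (T \ {v}))) {n : ℕ} (hn : 6 ≤ n) {f : ℤ → V}
    (hf : IsoCyc (res G T) n f) (h0 : f 0 = v) {w : V} (hw : w ≠ v)
    (hwv : (res G T).Adj w v) (haw : (res G T).Adj (f 1) w) (hbw : (res G T).Adj (f (-1)) w)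
    {k : ℕ} (hk : 2 * k ≤ n) (hlt : (res G (T \ {v})).dist w (f k) < k) : False := by
  have hle : res G (T \ {v}) ≤ res G T := res_mono Set.sdiff_subset
  -- no other vertex of the cycle is `v`
  have hne : ∀ j : ℤ, (¬ (n : ℤ) ∣ j) → f j ≠ v := by
    intro j hj he
    have h2 := Int.emod_nonneg j (show (n : ℤ) ≠ 0 by omega)
    have h3 := Int.emod_lt_of_pos j (show (0 : ℤ) < n by omega)
    have h4 : j % n ≠ 0 := fun h => hj (Int.dvd_of_emod_eq_zero h)
    have hp : Function.Periodic f (n : ℤ) := hf.per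
    have h5 : f j = f (j % n) := by
      have h6 := hp.int_mul (j / n) (j % n)
      simp only [Int.cast_id] at h6
      rw [← h6]
      congr 1
      have := Int.emod_add_mul_ediv j n
      linarith
    have h7 := hf.dist_ge' 0 (j % n).toNat (by omega)
    rw [Int.toNat_of_nonneg h2, zero_add, ← h5, he, h0, SimpleGraph.dist_self] at h7
    omega
  have hna : f 1 ≠ v := hne 1 (by
    intro h
    have := Int.le_of_dvd (by norm_num) h
    omega)
  have hnb : f (-1) ≠ v := hne (-1) (by
    intro h
    have := Int.le_of_dvd (by norm_num) (Int.dvd_neg.1 h)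
    omega)
  have haw' : (res G (T \ {v})).Adj (f 1) w := ⟨haw.1, ⟨haw.2.1, hna⟩, ⟨haw.2.2, hw⟩⟩
  have hbw' : (res G (T \ {v})).Adj (f (-1)) w := ⟨hbw.1, ⟨hbw.2.1, hnb⟩, ⟨hbw.2.2, hw⟩⟩
  have one : ∀ {H : SimpleGraph V} {a b : V}, H.Adj a b → H.dist a b = 1 :=
    fun h => dist_eq_one_iff_adj.2 h
  have hk1 : k ≠ 0 := by
    rintro rfl
    omega
  have hk2 : k ≠ 1 := by
    rintro rfl
    have := one haw'.symm
    push_cast at hlt
    omega
  have hk3 : 2 ≤ k := by omega
  -- segments
  obtain ⟨p1, hp1⟩ := seg (v := v) hf.adj (k - 1) 1 (by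
    intro j hj
    apply hne
    intro h
    have := Int.le_of_dvd (by omega) h
    omega)
  have ek : (1 : ℤ) + ((k - 1 : ℕ) : ℤ) = k := by
    rw [Nat.cast_sub (by omega)]
    push_cast
    ring
  rw [ek] at p1
  have ek' : ∀ x : ℕ, True := fun _ => trivial
  obtain ⟨y, hy⟩ : ∃ y, y = f k := ⟨_, rfl⟩
  obtain ⟨q1, hq1⟩ : ∃ q : (res G (T \ {v})).Walk (f 1) y, q.length = k - 1 := by
    obtain ⟨p, hp⟩ := seg (v := v) hf.adj (k - 1) 1 (by
      intro j hj
      apply hne
      intro h
      have := Int.le_of_dvd (by omega) h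
      omega)
    refine ⟨p.copy rfl (by rw [ek, hy]), by simp [hp]⟩
  clear p1 hp1
  rw [← hy] at hlt
  have ra : (res G (T \ {v})).Reachable (f 1) y := ⟨q1⟩
  have rw' : (res G (T \ {v})).Reachable w y := haw'.symm.reachable.trans ra
  have rb : (res G (T \ {v})).Reachable (f (-1)) y := hbw'.reachable.trans rw'
  have dle : ∀ {a b : V}, (res G (T \ {v})).Reachable a b →
      (res G T).dist a b ≤ (res G (T \ {v})).dist a b := fun h => h.dist_anti hle
  have d1 : k ≤ (res G T).dist v y := by
    have := hf.iso 0 k hk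
    rw [h0, zero_add, ← hy] at this
    exact this
  have d2 := hwv.symm.reachable.dist_triangle_left y
  rw [one hwv.symm] at d2
  have d3 := dle rw'
  have d4 : (res G (T \ {v})).dist w y = k - 1 := by omega
  have d4' : (res G T).dist w y = k - 1 := by omega
  have d5 := hbw.reachable.dist_triangle_left y
  rw [one hbw] at d5
  have d6 : min (k + 1) (n - (k + 1)) ≤ (res G T).dist (f (-1)) y := by
    have := hf.dist_ge' (-1) (k + 1) (by omega)
    have e : (-1 : ℤ) + ((k + 1 : ℕ) : ℤ) = k := by push_cast; ring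
    rw [e, ← hy] at this
    exact this
  have d7 : n ≤ 2 * k + 1 := by omega
  have d8 : (res G (T \ {v})).dist (f 1) y = k - 1 := by
    have h1 := hf.iso 1 (k - 1) (by omega)
    rw [ek, ← hy] at h1
    have h2 := dle ra
    have h3 := SimpleGraph.dist_le q1
    omega
  rcases (show n = 2 * k ∨ n = 2 * k + 1 by omega) with hn2 | hn2
  · -- even case
    obtain ⟨q2, hq2⟩ : ∃ q : (res G (T \ {v})).Walk y (f (-1)), q.length = k - 1 := by
      obtain ⟨p, hp⟩ := seg (v := v) hf.adj (k - 1) (-k) (by
        intro j hj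
        apply hne
        intro h
        have h' : (n : ℤ) ∣ (k : ℤ) - j := by
          have := Int.dvd_neg.2 h
          convert this using 1
          ring
        have := Int.le_of_dvd (by omega) h'
        omega)
      have e1 : f (-k) = y := by
        rw [hy, ← hf.per (-k)]
        congr 1
        rw [hn2]
        push_cast
        ring
      have e2 : f (-k + ((k - 1 : ℕ) : ℤ)) = f (-1) := by
        congr 1
        rw [Nat.cast_sub (by omega)]
        push_cast
        ring
      exact ⟨p.copy e1 e2, by simp [hp]⟩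
    have d9 : (res G (T \ {v})).dist (f (-1)) y = k - 1 := by
      have h2 := dle rb
      have h3 := SimpleGraph.dist_le q2
      rw [SimpleGraph.dist_comm] at h3
      omega
    obtain ⟨a', a1, a2, a3⟩ := PT_gen hT' (u := y) (v := f 1) (w := w) ra.symm
      (k := k - 1) (by rw [SimpleGraph.dist_comm]; exact d8)
      (by rw [SimpleGraph.dist_comm]; exact d4) haw'
    obtain ⟨b', b1, b2, b3⟩ := PT_gen hT' (u := y) (v := w) (w := f (-1)) rw'.symm
      (k := k - 1) (by rw [SimpleGraph.dist_comm]; exact d4)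
      (by rw [SimpleGraph.dist_comm]; exact d9) hbw'.symm
    have nab : ¬ G.Adj (f 1) (f (-1)) ∧ f 1 ≠ f (-1) := by
      have h1 := hf.iso (-1) 2 (by omega)
      have e : (-1 : ℤ) + ((2 : ℕ) : ℤ) = 1 := by norm_num
      rw [e] at h1
      constructor
      · intro h
        have : (res G T).Adj (f (-1)) (f 1) := ⟨h.symm, hbw.2.1, haw.2.1⟩
        have := one this
        omega
      · intro h
        rw [h, SimpleGraph.dist_self] at h1
        omega
    have avf : G.Adj v (f 1) := by
      have := (hf.adj 0).1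
      rwa [h0, zero_add] at this
    have avb : G.Adj (f (-1)) v := by
      have := (hf.adj (-1)).1
      rw [show (-1 : ℤ) + 1 = 0 by norm_num, h0] at this
      exact this
    have nv : ∀ x, (res G (T \ {v})).Adj x w → (res G (T \ {v})).dist y x + 1 = k - 1 →
        ¬ G.Adj v x := by
      intro x x1 x2 hvx
      have h1 : (res G T).Adj v x := ⟨hvx, hwv.2.2, x1.2.1.1⟩
      have h2 := h1.reachable.dist_triangle_left y
      rw [one h1] at h2
      have h3 := dle (x1.reachable.trans rw')
      rw [SimpleGraph.dist_comm] at x2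
      omega
    have key : ∀ x, (res G (T \ {v})).Adj x w → (res G (T \ {v})).dist y x + 1 = k - 1 →
        G.Adj x (f 1) → G.Adj x (f (-1)) → False := by
      intro x x1 x2 x3 x4
      exact noC4 hN (a := v) (b := f 1) (c := x) (e := f (-1)) avf x3.symm x4 avb
        (fun h => x1.2.1.2 h.symm) nab.2 (nv x x1 x2) nab.1
    rcases PI_gen hT' (u := y) (v := w) rw'.symm (k := k - 1)
      (by rw [SimpleGraph.dist_comm]; exact d4) a2 b1 a3 b3 with h | h
    · subst h
      exact key a' a2 a3 a1.1 b2.1
    · refine noC5 hN (a := v) (b := f 1) (c := a') (e := b') (f := f (-1)) avf a1.1.symm h.1 b2.1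
        avb (fun h => a1.2.1.2 h.symm) (fun h => b1.2.1.2 h.symm) ?_ nab.2 ?_
        (nv a' a2 a3) (nv b' b1 b3) ?_ nab.1 ?_
      · intro h'
        rw [h', SimpleGraph.dist_comm] at d8
        omega
      · intro h'
        rw [← h', SimpleGraph.dist_comm] at d9
        omega
      · intro h'
        exact key b' b1 b3 h'.symm b2.1
      · intro h'
        exact key a' a2 a3 a1.1 h'
  · -- odd case
    obtain ⟨q2, hq2⟩ : ∃ q : (res G (T \ {v})).Walk y (f (-2)), q.length = k - 1 := by
      obtain ⟨p, hp⟩ := seg (v := v) hf.adj (k - 1) (-(k + 1)) (by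
        intro j hj
        apply hne
        intro h
        have h' : (n : ℤ) ∣ ((k : ℤ) + 1) - j := by
          have := Int.dvd_neg.2 h
          convert this using 1
          ring
        have := Int.le_of_dvd (by omega) h'
        omega)
      have e1 : f (-(k + 1)) = y := by
        rw [hy, ← hf.per (-(k + 1))]
        congr 1
        rw [hn2]
        push_cast
        ring
      have e2 : f (-(k + 1) + ((k - 1 : ℕ) : ℤ)) = f (-2) := by
        congr 1
        rw [Nat.cast_sub (by omega)]
        push_cast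
        ring
      exact ⟨p.copy e1 e2, by simp [hp]⟩
    have n2 : f (-2) ≠ v := hne (-2) (by
      intro h
      have := Int.le_of_dvd (by norm_num) (Int.dvd_neg.1 h)
      omega)
    have a21 : (res G (T \ {v})).Adj (f (-2)) (f (-1)) := by
      have := hf.adj (-2)
      rw [show (-2 : ℤ) + 1 = -1 by norm_num] at this
      exact ⟨this.1, ⟨this.2.1, n2⟩, ⟨this.2.2, hnb⟩⟩
    have d9 : (res G (T \ {v})).dist (f (-1)) y = k ∧
        (res G (T \ {v})).dist y (f (-2)) = k - 1 := by
      have h2 := dle rb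
      have h3 := SimpleGraph.dist_le q2
      have h4 := a21.symm.reachable.dist_triangle_left y
      rw [one a21.symm, SimpleGraph.dist_comm (u := f (-2))] at h4
      omega
    have d10 : 3 ≤ (res G T).dist (f (-2)) (f 1) := by
      have := hf.dist_ge' (-2) 3 (by omega)
      have e : (-2 : ℤ) + ((3 : ℕ) : ℤ) = 1 := by norm_num
      rw [e] at this
      omega
    rcases PI_gen hT' (u := y) (v := f (-1)) rb.symm (k := k)
      (by rw [SimpleGraph.dist_comm]; exact d9.1) hbw'.symm a21
      (by rw [SimpleGraph.dist_comm]; omega) (by omega) with h | h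
    · rw [← h, one haw.symm] at d10
      omega
    · have h1 := hle h
      have h2 := h1.symm.reachable.dist_triangle_left (f 1)
      rw [one h1.symm, one haw.symm] at h2
      omega

theorem elim_step {G : SimpleGraph V} (hN : NoIso G) {T : Set V} {v w : V}
    (hdom : ∀ a ∈ T, G.Adj a v → w ∈ T ∧ w ≠ v ∧ G.Adj w v ∧ (a = w ∨ G.Adj a w))
    (hT' : NoIso (res G (T \ {v}))) : NoIso (res G T) := by
  have hle : res G (T \ {v}) ≤ res G T := res_mono Set.sdiff_subset
  intro n f₀ hn hf₀
  have one : ∀ {H : SimpleGraph V} {a b : V}, H.Adj a b → H.dist a b = 1 :=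
    fun h => dist_eq_one_iff_adj.2 h
  by_cases hv : ∀ i, f₀ i ≠ v
  · have hadj : ∀ i, (res G (T \ {v})).Adj (f₀ i) (f₀ (i + 1)) := fun i =>
      ⟨(hf₀.adj i).1, ⟨(hf₀.adj i).2.1, hv _⟩, ⟨(hf₀.adj i).2.2, hv _⟩⟩
    refine hT' n f₀ hn ⟨hf₀.per, hadj, ?_⟩
    intro i k hk
    exact (hf₀.iso i k hk).trans ((chain_reach hadj i k).dist_anti hle)
  push Not at hv
  obtain ⟨i₀, hi₀⟩ := hv
  obtain ⟨f, hf⟩ : ∃ f : ℤ → V, f = fun i => f₀ (i + i₀) := ⟨_, rfl⟩
  have hf0 : f 0 = v := by rw [hf]; simpa using hi₀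
  replace hf : IsoCyc (res G T) n f := by rw [hf]; exact hf₀.shift i₀
  clear hf₀ hi₀ i₀
  -- long cycle
  have h6 : 6 ≤ n := by
    by_contra hlt
    refine hN n f hn (isoCyc_small (by omega) hf.per (fun i => (hf.adj i).1) ?_)
    intro i
    have h1 := hf.iso i 2 (by omega)
    push_cast at h1
    constructor
    · intro h
      rw [← h, SimpleGraph.dist_self] at h1
      omega
    · intro h
      have h2 : (res G T).Adj (f i) (f (i + 2)) := ⟨h, (hf.adj i).2.1, (hf.adj (i + 2)).2.1⟩
      rw [one h2] at h1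
      omega
  have hva : (res G T).Adj v (f 1) := by
    have := hf.adj 0
    rwa [hf0, zero_add] at this
  have hbv : (res G T).Adj (f (-1)) v := by
    have := hf.adj (-1)
    rwa [show (-1 : ℤ) + 1 = 0 by norm_num, hf0] at this
  obtain ⟨w1, w2, w3, w4⟩ := hdom (f 1) hva.2.2 hva.1.symm
  obtain ⟨-, -, -, w5⟩ := hdom (f (-1)) hbv.2.1 hbv.1
  have hab : 2 ≤ (res G T).dist (f (-1)) (f 1) := by
    have h1 := hf.iso (-1) 2 (by omega)
    have e : (-1 : ℤ) + ((2 : ℕ) : ℤ) = 1 := by norm_num
    rwa [e] at h1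
  have haw : G.Adj (f 1) w := by
    rcases w4 with h | h
    · rcases w5 with h' | h'
      · rw [h', h, SimpleGraph.dist_self] at hab
        omega
      · have : (res G T).Adj (f (-1)) (f 1) := ⟨by rw [h]; exact h', hbv.2.1, hva.2.2⟩
        rw [one this] at hab
        omega
    · exact h
  have hbw : G.Adj (f (-1)) w := by
    rcases w5 with h | h
    · have : (res G T).Adj (f (-1)) (f 1) := ⟨by rw [h]; exact haw.symm, hbv.2.1, hva.2.2⟩
      rw [one this] at hab
      omega
    · exact h
  have Haw : (res G T).Adj (f 1) w := ⟨haw, hva.2.2, w1⟩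
  have Hbw : (res G T).Adj (f (-1)) w := ⟨hbw, hbv.2.1, w1⟩
  have Hwv : (res G T).Adj w v := ⟨w3, w1, hva.2.1⟩
  have hp : Function.Periodic f (n : ℤ) := hf.per
  have hper : ∀ j q : ℤ, f (j + q * n) = f j := by
    intro j q
    have h6 := hp.int_mul q j
    simpa only [Int.cast_id] using h6
  have hne : ∀ j : ℤ, (¬ (n : ℤ) ∣ j) → f j ≠ v := by
    intro j hj he
    have h2 := Int.emod_nonneg j (show (n : ℤ) ≠ 0 by omega)
    have h3 := Int.emod_lt_of_pos j (show (0 : ℤ) < n by omega)
    have h4 : j % n ≠ 0 := fun h => hj (Int.dvd_of_emod_eq_zero h)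
    have h5 : f j = f (j % n) := by
      rw [← hper (j % n) (j / n)]
      congr 1
      have := Int.emod_add_mul_ediv j n
      linarith
    have h7 := hf.dist_ge' 0 (j % n).toNat (by omega)
    rw [Int.toNat_of_nonneg h2, zero_add, ← h5, he, hf0, SimpleGraph.dist_self] at h7
    omega
  classical
  let c : ℤ → V := fun i => if (n : ℤ) ∣ i then w else f i
  have cT : ∀ i, c i ∈ T \ {v} := by
    intro i
    simp only [c]
    split_ifs with h
    · exact ⟨w1, w2⟩
    · exact ⟨(hf.adj i).2.1, hne i h⟩
  have cper : ∀ i, c (i + n) = c i := by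
    intro i
    simp only [c, hf.per]
    have : (n : ℤ) ∣ i + n ↔ (n : ℤ) ∣ i := by
      constructor
      · intro h
        have := dvd_sub h (dvd_refl (n : ℤ))
        simpa using this
      · intro h
        exact dvd_add h (dvd_refl _)
    simp [this]
  have cadj : ∀ i, (res G (T \ {v})).Adj (c i) (c (i + 1)) := by
    intro i
    refine ⟨?_, cT i, cT (i + 1)⟩
    simp only [c]
    by_cases h : (n : ℤ) ∣ i
    · have h' : ¬ (n : ℤ) ∣ i + 1 := by
        intro h'
        have := (Int.dvd_add_right h).1 h'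
        have := Int.le_of_dvd (by norm_num) this
        omega
      rw [if_pos h, if_neg h']
      obtain ⟨q, rfl⟩ := h
      have : f ((n : ℤ) * q + 1) = f 1 := by
        rw [← hper 1 q]
        congr 1
        ring
      rw [this]
      exact haw.symm
    · by_cases h' : (n : ℤ) ∣ i + 1
      · rw [if_neg h, if_pos h']
        obtain ⟨q, hq⟩ := h'
        have : f i = f (-1) := by
          rw [← hper (-1) q]
          congr 1
          linarith
        rw [this]
        exact hbw
      · rw [if_neg h, if_neg h']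
        exact (hf.adj i).1
  have hnot := hT' n c hn
  have : ∃ (i : ℤ) (k : ℕ), 2 * k ≤ n ∧ (res G (T \ {v})).dist (c i) (c (i + k)) < k := by
    by_contra hcon
    push Not at hcon
    exact hnot ⟨cper, cadj, fun i k hk => hcon i k hk⟩
  obtain ⟨i, k, hk, hlt⟩ := this
  have hk0 : k ≠ 0 := by
    rintro rfl
    omega
  by_cases h : (n : ℤ) ∣ i
  · have h' : ¬ (n : ℤ) ∣ i + k := by
      intro h'
      have := (Int.dvd_add_right h).1 h'
      have := Int.le_of_dvd (by omega) this
      omega
    simp only [c] at hlt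
    rw [if_pos h, if_neg h'] at hlt
    obtain ⟨q, rfl⟩ := h
    have : f ((n : ℤ) * q + k) = f k := by
      rw [← hper k q]
      congr 1
      ring
    rw [this] at hlt
    exact elim_core2 hN hT' h6 hf hf0 w2 Hwv Haw Hbw hk hlt
  · by_cases h' : (n : ℤ) ∣ i + k
    · simp only [c] at hlt
      rw [if_neg h, if_pos h'] at hlt
      obtain ⟨q, hq⟩ := h'
      have : f i = f (-k) := by
        rw [← hper (-k) q]
        congr 1
        linarith
      rw [this, SimpleGraph.dist_comm] at hlt
      exact elim_core2 hN hT' h6 hf.neg (by simpa using hf0) w2 Hwv Hbw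
        (by simpa using Haw) hk hlt
    · simp only [c] at hlt
      rw [if_neg h, if_neg h'] at hlt
      have h1 := hf.iso i k hk
      have hr := chain_reach cadj i k
      simp only [c] at hr
      rw [if_neg h, if_neg h'] at hr
      have := hr.dist_anti hle
      omega

theorem exists_closure {O : Type*} [LinearOrder O] [WellFoundedLT O] (rk : V → O)
    (f : V → V) (S : Finset V) :
    ∃ T : Finset V, S ⊆ T ∧ ∀ x ∈ T, rk (f x) < rk x → f x ∈ T := by
  classical
  have h1 : ∀ (o : O) (x : V), rk x = o →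
      ∃ T : Finset V, x ∈ T ∧ ∀ y ∈ T, rk (f y) < rk y → f y ∈ T := by
    intro o
    induction o using WellFoundedLT.induction with
    | _ o ih =>
      intro x hx
      by_cases h : rk (f x) < rk x
      · obtain ⟨T, hT, hT'⟩ := ih (rk (f x)) (hx ▸ h) (f x) rfl
        refine ⟨insert x T, Finset.mem_insert_self _ _, ?_⟩
        intro y hy hlt
        rcases Finset.mem_insert.1 hy with rfl | hy
        · exact Finset.mem_insert_of_mem hT
        · exact Finset.mem_insert_of_mem (hT' y hy hlt)
      · refine ⟨{x}, Finset.mem_singleton_self _, ?_⟩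
        intro y hy hlt
        rw [Finset.mem_singleton] at hy
        subst hy
        exact absurd hlt h
  choose T hT hT' using fun x => h1 (rk x) x rfl
  refine ⟨S.biUnion T, fun x hx => Finset.mem_biUnion.2 ⟨x, hx, hT x⟩, ?_⟩
  intro x hx hlt
  obtain ⟨s, hs, hxs⟩ := Finset.mem_biUnion.1 hx
  exact Finset.mem_biUnion.2 ⟨s, hs, hT' s x hxs hlt⟩

theorem noIso_closed {G : SimpleGraph V} (hN : NoIso G) {O : Type*} [LinearOrder O]
    (rk : V → O) (hinj : Function.Injective rk) (f : V → V)
    (hf : ∀ v a, G.Adj a v → rk a < rk v →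
        rk (f v) < rk v ∧ G.Adj (f v) v ∧ (a = f v ∨ G.Adj a (f v))) :
    ∀ (m : ℕ) (T : Finset V), T.card = m → (∀ x ∈ T, rk (f x) < rk x → f x ∈ T) →
      NoIso (res G (T : Set V)) := by
  classical
  intro m
  induction m with
  | zero =>
    intro T hT _ n g hn hg
    rw [Finset.card_eq_zero] at hT
    subst hT
    have := (hg.adj 0).2.1
    simp at this
  | succ m ih =>
    intro T hT hcl
    have hne : T.Nonempty := by
      rw [← Finset.card_pos]
      omega
    obtain ⟨v, hv, hmax⟩ := Finset.exists_max_image T rk hne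
    have hcard : (T.erase v).card = m := by
      rw [Finset.card_erase_of_mem hv]
      omega
    have h1 := ih (T.erase v) hcard (by
      intro x hx hlt
      rw [Finset.mem_erase] at hx ⊢
      refine ⟨?_, hcl x hx.2 hlt⟩
      intro he
      rw [he] at hlt
      exact absurd hlt (not_lt.2 (hmax x hx.2)))
    rw [Finset.coe_erase] at h1
    refine elim_step hN (w := f v) ?_ h1
    intro a ha hav
    have hlt : rk a < rk v :=
      lt_of_le_of_ne (hmax a ha) (fun h => hav.ne (hinj h))
    obtain ⟨h2, h3, h4⟩ := hf v a hav hlt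
    exact ⟨hcl v hv h2, h3.ne, h3, h4⟩

theorem main {G : SimpleGraph V} (hG : Brg G) (S : Finset V) :
    ∃ T : Finset V, S ⊆ T ∧ Brg (G.induce (T : Set V)) := by
  have hN := hG.noIso
  obtain ⟨rk, f, hinj, hf⟩ := exists_dismantling hN
  obtain ⟨T, hST, hT⟩ := exists_closure rk f S
  exact ⟨T, hST, brg_induce (noIso_closed hN rk hinj f hf _ T rfl hT)⟩

end Pool.Agent.H233R2.Bridged
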