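import Pool.Agent.H626R2.Loc.ODefs

/-!
# Task O4: determinants of sums of products
-/

set_option autoImplicit false

namespace Pool.Agent.H626R2.Loc

open MvPolynomial

variable {K : Type} [Field K] {n : ℕ}

namespace O4

/-- a sum of products indexed by a finite type of the right cardinality -/
theorem sumProd_of_fintype {ι : Type} [Fintype ι] {S : Set (MvPolynomial (Fin n) K)} {k : ℕ}
    (hk : Fintype.card ι = k) (a : ι → K) (M : ι → Multiset (MvPolynomial (Fin n) K))
    (hM : ∀ i, ∀ g ∈ M i, g ∈ S) {f : MvPolynomial (Fin n) K}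
    (hf : f = ∑ i, C (a i) * (M i).prod) : SumProd k S f := by
  classical
  let e := Fintype.equivFinOfCardEq hk
  refine ⟨fun i => a (e.symm i), fun i => M (e.symm i), fun i g hg => hM _ g hg, ?_⟩
  rw [hf]
  exact (Equiv.sum_comp e.symm (fun i => C (a i) * (M i).prod)).symm

end O4

/-- O4. -/
theorem SumProd.det {S : Set (MvPolynomial (Fin n) K)} {q c' : ℕ}
    (R : Matrix (Fin q) (Fin q) (MvPolynomial (Fin n) K)) (hR : ∀ a b, SumProd c' S (R a b)) :
    SumProd (q.factorial * c' ^ q) S R.det := by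
  classical
  choose a M hM hRM using hR
  refine O4.sumProd_of_fintype (ι := Equiv.Perm (Fin q) × (Fin q → Fin c')) ?_
    (fun p => ((Equiv.Perm.sign p.1 : ℤ) : K) * ∏ i, a (p.1 i) i (p.2 i))
    (fun p => ∑ i, M (p.1 i) i (p.2 i)) ?_ ?_
  · simp [Fintype.card_perm]
  · intro p g hg
    rw [Multiset.mem_sum] at hg
    obtain ⟨i, -, hi⟩ := hg
    exact hM _ _ _ g hi
  · rw [Matrix.det_apply, Fintype.sum_prod_type]
    refine Finset.sum_congr rfl fun σ _ => ?_
    have h1 : ∏ i, R (σ i) i = ∑ x : Fin q → Fin c', ∏ i, (C (a (σ i) i (x i)) * (M (σ i) i (x i)).prod) := by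
      rw [Finset.prod_congr rfl fun i _ => hRM (σ i) i, Finset.prod_univ_sum, Fintype.piFinset_univ]
    rw [h1, Finset.smul_sum]
    refine Finset.sum_congr rfl fun x _ => ?_
    rw [Finset.prod_mul_distrib, Multiset.prod_sum, map_mul, map_prod, Units.smul_def, zsmul_eq_mul,
      mul_assoc]
    congr 1

end Pool.Agent.H626R2.Loc
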