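import Mathlib

set_option autoImplicit false

open Finset

namespace Pool.Agent.H233R2.QR

/-- the layer divisors -/
def Dv (L K : ℕ) : ℕ → ℕ
  | 0 => 2
  | i + 1 => Dv L K i * (8 * L * K * (24 * L * 2 ^ L * Dv L K i) ^ 10)

/-- the sample space -/
abbrev Om (L N : ℕ) (n : ℕ → ℕ) := (p : Fin L × Fin N) → Fin (n p.1)

/-- vertices of the smaller side -/
abbrev W (L : ℕ) (n : ℕ → ℕ) := Σ l : Fin L, Fin (n l)

def wt {L N : ℕ} {n : ℕ → ℕ} (φ : Om L N n) (p : Fin L × Fin N) : W L n := ⟨p.1, φ p⟩

/-- local sparsity of the first `i` layers -/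
def Good {L N : ℕ} {n : ℕ → ℕ} (K : ℕ) (φ : Om L N n) (i : ℕ) : Prop :=
  ∀ E : Finset (Fin L × Fin N), E.Nonempty → (∀ p ∈ E, p.1.val < i) →
    (E.image Prod.snd).card + (E.image (wt φ)).card ≤ 8 * L * K * n i →
    10 * E.card < 11 * ((E.image Prod.snd).card + (E.image (wt φ)).card)

theorem choose_bound (M v : ℕ) (hv : 1 ≤ v) : (M.choose v : ℝ) ≤ (3 * M / v) ^ v := by
  have h1 : (M.choose v : ℝ) ≤ (M : ℝ) ^ v / (v.factorial : ℝ) := Nat.choose_le_pow_div v M
  have h2 : (v : ℝ) ^ v / (v.factorial : ℝ) ≤ Real.exp v :=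
    Real.pow_div_factorial_le_exp (v : ℝ) (by positivity) v
  have h3 : Real.exp v ≤ 3 ^ v := by
    have h4 : Real.exp (v : ℝ) = Real.exp 1 ^ v := by
      rw [← Real.exp_nat_mul]
      simp
    rw [h4]
    have := Real.exp_one_lt_d9
    exact pow_le_pow_left₀ (Real.exp_pos 1).le (by linarith) v
  have hf : (0 : ℝ) < v.factorial := by exact_mod_cast Nat.factorial_pos v
  have hv' : (0 : ℝ) < v := by exact_mod_cast hv
  have h5 : (1 : ℝ) / v.factorial ≤ 3 ^ v / (v : ℝ) ^ v := by
    rw [div_le_div_iff₀ hf (by positivity)]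
    rw [div_le_iff₀ hf] at h2
    nlinarith [h2, h3, mul_le_mul_of_nonneg_right h3 hf.le]
  calc (M.choose v : ℝ) ≤ (M : ℝ) ^ v / (v.factorial : ℝ) := h1
    _ = (M : ℝ) ^ v * (1 / v.factorial) := by ring
    _ ≤ (M : ℝ) ^ v * (3 ^ v / (v : ℝ) ^ v) := by gcongr
    _ = (3 * M / v) ^ v := by
      rw [div_pow, mul_pow]
      ring

theorem term_bound {L N n' D v e : ℕ} (hL : 1 ≤ L) (hD : 1 ≤ D) (hn' : 1 ≤ n') (hN : N = n' * D)
    (hv : 1 ≤ v) (he : 11 * v ≤ 10 * e)
    (hy : (v : ℝ) / n' ≤ (1 / (24 * L * 2 ^ L * D)) ^ 10) :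
    ((2 * N).choose v : ℝ) * 2 ^ (L * v) * ((v : ℝ) / n') ^ e ≤ (1 / (4 * L)) ^ v := by
  have hL' : (1 : ℝ) ≤ L := by exact_mod_cast hL
  have hD' : (1 : ℝ) ≤ D := by exact_mod_cast hD
  have hn'' : (1 : ℝ) ≤ n' := by exact_mod_cast hn'
  have hv' : (1 : ℝ) ≤ v := by exact_mod_cast hv
  obtain ⟨z, hz⟩ : ∃ z : ℝ, z = 1 / (24 * L * 2 ^ L * D) := ⟨_, rfl⟩
  obtain ⟨y, hy'⟩ : ∃ y : ℝ, y = (v : ℝ) / n' := ⟨_, rfl⟩
  rw [← hz, ← hy'] at hy
  rw [← hy']
  have hz0 : 0 < z := by rw [hz]; positivity
  have hz1 : z ≤ 1 := by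
    rw [hz, div_le_one (by positivity)]
    have h2 : (1 : ℝ) ≤ 2 ^ L := one_le_pow₀ (by norm_num)
    have : (1 : ℝ) ≤ L * 2 ^ L := by nlinarith
    have : (1 : ℝ) ≤ L * 2 ^ L * D := by nlinarith
    nlinarith
  have hy0 : 0 < y := by rw [hy']; positivity
  have hev : v ≤ e := by omega
  have h1 : y ^ e ≤ y ^ v * z ^ v := by
    have : e = v + (e - v) := by omega
    rw [this, pow_add]
    apply mul_le_mul_of_nonneg_left _ (by positivity)
    calc y ^ (e - v) ≤ (z ^ 10) ^ (e - v) := pow_le_pow_left₀ hy0.le hy _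
      _ = z ^ (10 * (e - v)) := by rw [← pow_mul]
      _ ≤ z ^ v := pow_le_pow_of_le_one hz0.le hz1 (by omega)
  have h2 := choose_bound (2 * N) v hv
  calc ((2 * N).choose v : ℝ) * 2 ^ (L * v) * y ^ e
      ≤ (3 * (2 * N : ℕ) / v) ^ v * 2 ^ (L * v) * (y ^ v * z ^ v) := by
        gcongr
    _ = (3 * (2 * N : ℕ) / v * 2 ^ L * y * z) ^ v := by
        rw [pow_mul, mul_pow, mul_pow, mul_pow]
        ring
    _ = (1 / (4 * L)) ^ v := by
        congr 1
        rw [hy', hz, hN]
        push_cast
        have hL0 : (L : ℝ) ≠ 0 := by positivity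
        have hD0 : (D : ℝ) ≠ 0 := by positivity
        have hn0 : (n' : ℝ) ≠ 0 := by positivity
        have hv0 : (v : ℝ) ≠ 0 := by positivity
        field_simp
        ring

theorem phi_card {L N : ℕ} {n : ℕ → ℕ} {n' v : ℕ} (hn' : 1 ≤ n')
    (E : Finset (Fin L × Fin N)) (B : Finset (W L n)) (hB : B.card ≤ v)
    (hE : ∀ p ∈ E, n' ≤ n p.1) :
    ((univ.filter (fun φ : Om L N n => ∀ p ∈ E, wt φ p ∈ B)).card : ℝ)
      ≤ (Fintype.card (Om L N n) : ℝ) * ((v : ℝ) / n') ^ E.card := by
  classical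
  let t : (p : Fin L × Fin N) → Finset (Fin (n p.1)) := fun p =>
    if p ∈ E then univ.filter (fun b => (⟨p.1, b⟩ : W L n) ∈ B) else univ
  have h1 : univ.filter (fun φ : Om L N n => ∀ p ∈ E, wt φ p ∈ B) = Fintype.piFinset t := by
    ext φ
    simp only [mem_filter, mem_univ, true_and, Fintype.mem_piFinset, t]
    constructor
    · intro h p
      by_cases hp : p ∈ E
      · rw [if_pos hp, mem_filter]
        exact ⟨mem_univ _, h p hp⟩
      · rw [if_neg hp]
        exact mem_univ _
    · intro h p hp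
      have := h p
      rw [if_pos hp, mem_filter] at this
      exact this.2
  rw [h1, Fintype.card_piFinset]
  have hn0 : (0 : ℝ) < n' := by exact_mod_cast hn'
  have h2 : ∀ p, ((t p).card : ℝ) ≤ (n p.1 : ℝ) * (if p ∈ E then (v : ℝ) / n' else 1) := by
    intro p
    by_cases hp : p ∈ E
    · rw [if_pos hp]
      have h3 : (t p).card ≤ v := by
        refine le_trans ?_ hB
        apply Finset.card_le_card_of_injOn (fun b => (⟨p.1, b⟩ : W L n))
        · intro b hb
          simp only [t] at hb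
          rw [if_pos hp, mem_coe, mem_filter] at hb
          exact hb.2
        · intro a _ b _ hab
          simpa using hab
      have h4 : (n' : ℝ) ≤ n p.1 := by exact_mod_cast hE p hp
      calc ((t p).card : ℝ) ≤ v := by exact_mod_cast h3
        _ = n' * (v / n') := by field_simp
        _ ≤ n p.1 * (v / n') := by gcongr
    · rw [if_neg hp]
      simp [t, hp]
  push_cast
  calc ∏ p, ((t p).card : ℝ) ≤ ∏ p : Fin L × Fin N, ((n p.1 : ℝ) * (if p ∈ E then (v : ℝ) / n' else 1)) :=
        Finset.prod_le_prod (fun _ _ => by positivity) (fun p _ => h2 p)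
    _ = (Fintype.card (Om L N n) : ℝ) * ((v : ℝ) / n') ^ E.card := by
        rw [Finset.prod_mul_distrib]
        congr 1
        · rw [Fintype.card_pi]
          push_cast
          simp
        · rw [Finset.prod_ite]
          simp [div_pow]

theorem bad_card {L K N : ℕ} {n : ℕ → ℕ} {i D : ℕ} (hL : 1 ≤ L) (hD : 1 ≤ D) (hn' : 1 ≤ n (i - 1))
    (hN : N = n (i - 1) * D) (hmono : ∀ l, l < i → n (i - 1) ≤ n l)
    (hsum : ∑ l : Fin L, n l ≤ N)
    (hy : ((8 * L * K * n i : ℕ) : ℝ) / n (i - 1) ≤ (1 / (24 * L * 2 ^ L * D)) ^ 10)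
    [DecidablePred fun φ : Om L N n => ¬ Good K φ i] :
    ((univ.filter (fun φ : Om L N n => ¬ Good K φ i)).card : ℝ)
      ≤ (Fintype.card (Om L N n) : ℝ) * (1 / (2 * L)) := by
  classical
  let M := 8 * L * K * n i
  let AS : Finset (Fin N ⊕ W L n) → Finset (Fin N) := fun S => univ.filter (fun a => Sum.inl a ∈ S)
  let BS : Finset (Fin N ⊕ W L n) → Finset (W L n) := fun S => univ.filter (fun a => Sum.inr a ∈ S)
  let ES : ℕ → Finset (Fin N ⊕ W L n) → Finset (Finset (Fin L × Fin N)) := fun v S =>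
    (univ ×ˢ AS S).powerset.filter (fun E => (∀ p ∈ E, p.1.val < i) ∧ 11 * v ≤ 10 * E.card)
  let Φ : Finset (Fin N ⊕ W L n) → Finset (Fin L × Fin N) → Finset (Om L N n) := fun S E =>
    univ.filter (fun φ : Om L N n => ∀ p ∈ E, wt φ p ∈ BS S)
  have hsub : univ.filter (fun φ : Om L N n => ¬ Good K φ i) ⊆
      (Icc 1 M).biUnion fun v => (powersetCard v (univ : Finset (Fin N ⊕ W L n))).biUnion
        fun S => (ES v S).biUnion fun E => Φ S E := by
    intro φ hφ
    rw [mem_filter] at hφ
    have h := hφ.2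
    unfold Good at h
    push Not at h
    obtain ⟨E, hE, hEi, hEv, hE2⟩ := h
    let S : Finset (Fin N ⊕ W L n) :=
      (E.image Prod.snd).disjSum (E.image (wt φ))
    have hS : S.card = (E.image Prod.snd).card + (E.image (wt φ)).card :=
      Finset.card_disjSum _ _
    simp only [mem_biUnion]
    refine ⟨S.card, ?_, S, ?_, E, ?_, ?_⟩
    · rw [mem_Icc]
      constructor
      · rw [hS]
        have : 0 < (E.image Prod.snd).card := Finset.card_pos.2 (hE.image _)
        omega
      · rw [hS]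
        exact hEv
    · rw [mem_powersetCard]
      exact ⟨subset_univ _, rfl⟩
    · simp only [ES, mem_filter, mem_powerset]
      refine ⟨?_, hEi, by rw [hS]; exact hE2⟩
      intro p hp
      rw [mem_product]
      refine ⟨mem_univ _, ?_⟩
      simp only [AS, mem_filter, mem_univ, true_and, S, Finset.inl_mem_disjSum]
      exact mem_image_of_mem _ hp
    · simp only [Φ, mem_filter, mem_univ, true_and, BS, S, Finset.inr_mem_disjSum]
      intro p hp
      exact mem_image_of_mem _ hp
  have hcard := Finset.card_le_card hsub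
  have hOm : (0 : ℝ) ≤ (Fintype.card (Om L N n) : ℝ) := by positivity
  have hn0 : (0 : ℝ) < n (i - 1) := by exact_mod_cast hn'
  -- bound for a fixed v and S
  have hS : ∀ v ∈ Icc 1 M, ∀ S ∈ powersetCard v (univ : Finset (Fin N ⊕ W L n)),
      (((ES v S).biUnion fun E => Φ S E).card : ℝ) ≤
        2 ^ (L * v) * ((Fintype.card (Om L N n) : ℝ) * ((v : ℝ) / n (i - 1)) ^ ((11 * v + 9) / 10)) := by
    intro v hv S hS
    rw [mem_Icc] at hv
    rw [mem_powersetCard] at hS
    have hAc : (AS S).card ≤ v := by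
      rw [← hS.2]
      apply Finset.card_le_card_of_injOn (fun a => (Sum.inl a : Fin N ⊕ W L n))
      · intro a ha
        simp only [AS] at ha
        rw [mem_coe, mem_filter] at ha
        exact ha.2
      · intro a _ b _ hab
        simpa using hab
    have hBc : (BS S).card ≤ v := by
      rw [← hS.2]
      apply Finset.card_le_card_of_injOn (fun a => (Sum.inr a : Fin N ⊕ W L n))
      · intro a ha
        simp only [BS] at ha
        rw [mem_coe, mem_filter] at ha
        exact ha.2
      · intro a _ b _ hab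
        simpa using hab
    have hy1 : (v : ℝ) / n (i - 1) ≤ 1 := by
      have h1 : (v : ℝ) / n (i - 1) ≤ (M : ℝ) / n (i - 1) := by
        gcongr
        exact_mod_cast hv.2
      refine h1.trans (hy.trans ?_)
      apply pow_le_one₀ (by positivity)
      rw [div_le_one (by positivity)]
      have hL' : (1 : ℝ) ≤ L := by exact_mod_cast hL
      have hD' : (1 : ℝ) ≤ D := by exact_mod_cast hD
      have h2 : (1 : ℝ) ≤ 2 ^ L := one_le_pow₀ (by norm_num)
      have : (1 : ℝ) ≤ L * 2 ^ L := by nlinarith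
      have : (1 : ℝ) ≤ L * 2 ^ L * D := by nlinarith
      nlinarith
    have hEc : ((ES v S).card : ℝ) ≤ 2 ^ (L * v) := by
      have h1 : (ES v S).card ≤ 2 ^ (L * v) := by
        refine (Finset.card_filter_le _ _).trans ?_
        rw [Finset.card_powerset]
        apply Nat.pow_le_pow_right (by norm_num)
        rw [Finset.card_product]
        simp only [card_univ, Fintype.card_fin]
        exact Nat.mul_le_mul_left _ hAc
      exact_mod_cast h1
    calc (((ES v S).biUnion fun E => Φ S E).card : ℝ) ≤ ∑ E ∈ ES v S, ((Φ S E).card : ℝ) := by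
          exact_mod_cast Finset.card_biUnion_le
      _ ≤ ∑ E ∈ ES v S, ((Fintype.card (Om L N n) : ℝ) * ((v : ℝ) / n (i - 1)) ^ ((11 * v + 9) / 10)) := by
          apply Finset.sum_le_sum
          intro E hE
          simp only [ES, mem_filter] at hE
          have h1 := phi_card (v := v) hn' E (BS S) hBc (fun p hp => hmono _ (hE.2.1 p hp))
          refine h1.trans ?_
          apply mul_le_mul_of_nonneg_left _ hOm
          exact pow_le_pow_of_le_one (by positivity) hy1 (by omega)
      _ ≤ _ := by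
          rw [Finset.sum_const, nsmul_eq_mul]
          gcongr
  have hcardV : Fintype.card (Fin N ⊕ W L n) ≤ 2 * N := by
    rw [Fintype.card_sum, Fintype.card_sigma]
    simp only [Fintype.card_fin]
    omega
  calc ((univ.filter (fun φ : Om L N n => ¬ Good K φ i)).card : ℝ)
      ≤ (((Icc 1 M).biUnion fun v => (powersetCard v (univ : Finset (Fin N ⊕ W L n))).biUnion
        fun S => (ES v S).biUnion fun E => Φ S E).card : ℝ) := by exact_mod_cast hcard
    _ ≤ ∑ v ∈ Icc 1 M, (((powersetCard v (univ : Finset (Fin N ⊕ W L n))).biUnion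
        fun S => (ES v S).biUnion fun E => Φ S E).card : ℝ) := by
          exact_mod_cast Finset.card_biUnion_le
    _ ≤ ∑ v ∈ Icc 1 M, ∑ S ∈ powersetCard v (univ : Finset (Fin N ⊕ W L n)),
        (((ES v S).biUnion fun E => Φ S E).card : ℝ) := by
          apply Finset.sum_le_sum
          intro v _
          exact_mod_cast Finset.card_biUnion_le
    _ ≤ ∑ v ∈ Icc 1 M, (Fintype.card (Om L N n) : ℝ) * (1 / (4 * L)) ^ v := by
          apply Finset.sum_le_sum
          intro v hv
          refine (Finset.sum_le_sum (hS v hv)).trans ?_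
          rw [Finset.sum_const, nsmul_eq_mul, Finset.card_powersetCard, Finset.card_univ]
          rw [mem_Icc] at hv
          have h1 : ((Fintype.card (Fin N ⊕ W L n)).choose v : ℝ) ≤ ((2 * N).choose v : ℝ) := by
            exact_mod_cast Nat.choose_le_choose v hcardV
          have h2 := term_bound (L := L) (N := N) (n' := n (i - 1)) (D := D) (v := v)
            (e := (11 * v + 9) / 10) hL hD hn' hN hv.1 (by omega) (by
              refine le_trans ?_ hy
              gcongr
              exact_mod_cast hv.2)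
          calc _ ≤ ((2 * N).choose v : ℝ) * (2 ^ (L * v) * ((Fintype.card (Om L N n) : ℝ) * ((v : ℝ) / n (i - 1)) ^ ((11 * v + 9) / 10))) := by
                gcongr
            _ = (Fintype.card (Om L N n) : ℝ) * (((2 * N).choose v : ℝ) * 2 ^ (L * v) * ((v : ℝ) / n (i - 1)) ^ ((11 * v + 9) / 10)) := by ring
            _ ≤ _ := by gcongr
    _ ≤ _ := by
          rw [← Finset.mul_sum]
          apply mul_le_mul_of_nonneg_left _ hOm
          have hL' : (1 : ℝ) ≤ L := by exact_mod_cast hL
          have hq0 : (0 : ℝ) ≤ 1 / (4 * L) := by positivity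
          have hq1 : (1 : ℝ) / (4 * L) ≤ 1 / 4 := by
            apply div_le_div_of_nonneg_left (by norm_num) (by norm_num)
            linarith
          have h1 : ∑ v ∈ Icc 1 M, (1 / (4 * (L : ℝ))) ^ v ≤ (1 / (4 * L)) ^ 1 / (1 - 1 / (4 * L)) := by
            have : Icc 1 M = Ico 1 (M + 1) := by
              ext x
              simp
            rw [this]
            exact geom_sum_Ico_le_of_lt_one hq0 (by linarith)
          refine h1.trans ?_
          rw [pow_one, div_le_iff₀ (by linarith)]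
          have : (1 : ℝ) / (2 * L) = 2 * (1 / (4 * L)) := by
            field_simp
            norm_num
          rw [this]
          nlinarith

end Pool.Agent.H233R2.QR
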