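import Mathlib
import Pool.Agent.H233R2.QR1

set_option autoImplicit false

open Finset

namespace Pool.Agent.H233R2.QR

theorem Dv_pos {L K : ℕ} (hL : 1 ≤ L) (hK : 1 ≤ K) (i : ℕ) : 1 ≤ Dv L K i := by
  induction i with
  | zero => simp [Dv]
  | succ i ih =>
    simp only [Dv]
    have h1 : 0 < 24 * L * 2 ^ L * Dv L K i := by positivity
    have : 0 < Dv L K i * (8 * L * K * (24 * L * 2 ^ L * Dv L K i) ^ 10) := by positivity
    omega

theorem Dv_dvd (L K : ℕ) {i j : ℕ} (h : i ≤ j) : Dv L K i ∣ Dv L K j := by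
  induction j, h using Nat.le_induction with
  | base => exact dvd_rfl
  | succ j _ ih => exact ih.trans (by simp only [Dv]; exact dvd_mul_right _ _)

/-- sizes of the layers -/
def sz (L K l : ℕ) : ℕ := Dv L K L / Dv L K l

theorem sz_mul (L K : ℕ) {l : ℕ} (h : l ≤ L) : sz L K l * Dv L K l = Dv L K L :=
  Nat.div_mul_cancel (Dv_dvd L K h)

theorem sz_pos {L K : ℕ} (hL : 1 ≤ L) (hK : 1 ≤ K) {l : ℕ} (h : l ≤ L) : 1 ≤ sz L K l := by
  have h1 := sz_mul L K h
  have h2 := Dv_pos hL hK L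
  by_contra hlt
  have h3 : sz L K l = 0 := by omega
  rw [h3] at h1
  omega

theorem sz_succ {L K : ℕ} (hL : 1 ≤ L) (hK : 1 ≤ K) {l : ℕ} (h : l + 1 ≤ L) :
    sz L K l = sz L K (l + 1) * (8 * L * K * (24 * L * 2 ^ L * Dv L K l) ^ 10) := by
  have h1 := sz_mul L K h
  have h2 := sz_mul L K (show l ≤ L by omega)
  simp only [Dv] at h1
  have h3 := Dv_pos hL hK l
  apply Nat.eq_of_mul_eq_mul_right h3
  rw [h2]
  linarith

theorem sz_half {L K : ℕ} (hL : 1 ≤ L) (hK : 1 ≤ K) {l : ℕ} (h : l + 1 ≤ L) :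
    2 * sz L K (l + 1) ≤ sz L K l := by
  rw [sz_succ hL hK h, mul_comm 2]
  apply Nat.mul_le_mul_left
  have h3 := Dv_pos hL hK l
  have h4 : 0 < 24 * L * 2 ^ L * Dv L K l := by positivity
  have h5 : 1 ≤ (24 * L * 2 ^ L * Dv L K l) ^ 10 := Nat.one_le_pow _ _ h4
  nlinarith [Nat.mul_le_mul hL hK, Nat.mul_le_mul (Nat.mul_le_mul hL hK) h5]

theorem sz_sum {L K : ℕ} (hL : 1 ≤ L) (hK : 1 ≤ K) {j : ℕ} (h : j < L) :
    ∑ l ∈ Ico j L, sz L K l ≤ 2 * sz L K j := by
  obtain ⟨d, hd⟩ : ∃ d, L = j + 1 + d := ⟨L - (j + 1), by omega⟩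
  induction d generalizing j with
  | zero =>
    have : Ico j L = {j} := by
      rw [hd]
      ext x
      simp
    rw [this, sum_singleton]
    omega
  | succ d ih =>
    rw [Finset.sum_eq_sum_Ico_succ_bot h]
    have h1 := ih (j := j + 1) (by omega) (by omega)
    have h2 := sz_half hL hK (l := j) (by omega)
    omega

theorem sz_anti {L K : ℕ} (hL : 1 ≤ L) (hK : 1 ≤ K) {i j : ℕ} (h : i ≤ j) (hj : j ≤ L) :
    sz L K j ≤ sz L K i := by
  induction j, h using Nat.le_induction with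
  | base => exact le_rfl
  | succ j _ ih =>
    have h1 := ih (by omega)
    have h2 := sz_half hL hK (l := j) hj
    omega

theorem exists_good {L K : ℕ} (hL : 2 ≤ L) (hK : 1 ≤ K) :
    ∃ φ : Om L (Dv L K L) (sz L K), ∀ i, 1 ≤ i → i < L → Good K φ i := by
  classical
  by_contra hcon
  push Not at hcon
  have hL1 : 1 ≤ L := by omega
  have hsum : ∑ l : Fin L, sz L K l ≤ Dv L K L := by
    rw [Fin.sum_univ_eq_sum_range (fun l => sz L K l) L]
    have h1 := sz_sum hL1 hK (j := 0) (by omega)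
    have h2 := sz_mul L K (l := 0) (by omega)
    simp only [Dv] at h2
    rw [← Finset.range_eq_Ico] at h1
    omega
  have hsub : (univ : Finset (Om L (Dv L K L) (sz L K))) ⊆
      (Ico 1 L).biUnion fun i => univ.filter (fun φ => ¬ Good K φ i) := by
    intro φ _
    obtain ⟨i, h1, h2, h3⟩ := hcon φ
    rw [mem_biUnion]
    exact ⟨i, by rw [mem_Ico]; exact ⟨h1, h2⟩, by simpa using h3⟩
  have h1 : (Fintype.card (Om L (Dv L K L) (sz L K)) : ℝ) ≤
      ∑ i ∈ Ico 1 L, (Fintype.card (Om L (Dv L K L) (sz L K)) : ℝ) * (1 / (2 * L)) := by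
    have h2 : Fintype.card (Om L (Dv L K L) (sz L K)) ≤
        ∑ i ∈ Ico 1 L, (univ.filter (fun φ : Om L (Dv L K L) (sz L K) => ¬ Good K φ i)).card :=
      (Finset.card_le_card hsub).trans Finset.card_biUnion_le
    calc (Fintype.card (Om L (Dv L K L) (sz L K)) : ℝ) ≤
        ∑ i ∈ Ico 1 L, ((univ.filter (fun φ : Om L (Dv L K L) (sz L K) => ¬ Good K φ i)).card : ℝ) := by
          exact_mod_cast h2
      _ ≤ _ := by
        apply Finset.sum_le_sum
        intro i hi
        rw [mem_Ico] at hi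
        have hi1 : i - 1 + 1 = i := by omega
        have hs := sz_succ hL1 hK (l := i - 1) (by omega)
        rw [hi1] at hs
        refine bad_card (D := Dv L K (i - 1)) hL1 (Dv_pos hL1 hK _)
          (sz_pos hL1 hK (by omega)) (sz_mul L K (by omega)).symm
          (fun l hl => sz_anti hL1 hK (by omega) (by omega)) hsum ?_
        rw [hs]
        have h3 : (0 : ℝ) < sz L K i := by exact_mod_cast sz_pos hL1 hK (show i ≤ L by omega)
        have h4 : (0 : ℝ) < Dv L K (i - 1) := by exact_mod_cast Dv_pos hL1 hK (i - 1)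
        have h5 : (0 : ℝ) < L := by exact_mod_cast hL1
        have h6 : (0 : ℝ) < K := by exact_mod_cast hK
        apply le_of_eq
        push_cast
        field_simp
  rw [Finset.sum_const, Nat.card_Ico, nsmul_eq_mul] at h1
  have hpos : (0 : ℝ) < Fintype.card (Om L (Dv L K L) (sz L K)) := by
    have : Nonempty (Om L (Dv L K L) (sz L K)) :=
      ⟨fun p => ⟨0, by
        have := sz_pos hL1 hK (l := p.1) p.1.2.le
        omega⟩⟩
    exact_mod_cast Fintype.card_pos
  have hL' : (2 : ℝ) ≤ L := by exact_mod_cast hL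
  rw [Nat.cast_sub hL1] at h1
  have h2 : ((L : ℝ) - (1 : ℕ)) * ((Fintype.card (Om L (Dv L K L) (sz L K)) : ℝ) * (1 / (2 * L))) =
      (Fintype.card (Om L (Dv L K L) (sz L K)) : ℝ) * (((L : ℝ) - 1) / (2 * L)) := by
    push_cast
    ring
  rw [h2] at h1
  have h3 : ((L : ℝ) - 1) / (2 * L) ≤ 1 / 2 := by
    rw [div_le_div_iff₀ (by positivity) (by norm_num)]
    linarith
  nlinarith

theorem no_dense {L K : ℕ} (hL : 2 ≤ L) (hK : 1 ≤ K) {N : ℕ} (φ : Om L N (sz L K))
    (hφ : ∀ i, 1 ≤ i → i < L → Good K φ i) (E : Finset (Fin L × Fin N)) (hE : E.Nonempty)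
    (h3 : ∀ p ∈ E, 3 ≤ (E.filter (fun q => q.2 = p.2)).card)
    (h3' : ∀ p ∈ E, 3 ≤ (E.filter (fun q => wt φ q = wt φ p)).card)
    (hKE : ∀ p ∈ E, (E.filter (fun q => wt φ q = wt φ p)).card ≤ K) : False := by
  classical
  have hL1 : 1 ≤ L := by omega
  obtain ⟨m, hm⟩ : ∃ m, m = (E.image Prod.snd).card := ⟨_, rfl⟩
  have hm1 : 1 ≤ m := by
    rw [hm]
    exact Finset.card_pos.2 (hE.image _)
  have hE3 : 3 * m ≤ E.card := by
    have h1 := Finset.card_eq_sum_card_image (Prod.snd : Fin L × Fin N → Fin N) E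
    rw [h1, hm, mul_comm, ← smul_eq_mul, ← Finset.sum_const]
    apply Finset.sum_le_sum
    intro b hb
    obtain ⟨p, hp, rfl⟩ := mem_image.1 hb
    exact h3 p hp
  -- the low part
  have hlow : ∀ j, j < L → (E.filter (fun p => j ≤ p.1.val)).card ≤ K * (2 * sz L K j) := by
    intro j hj
    have h1 := Finset.card_eq_sum_card_image (wt φ) (E.filter (fun p => j ≤ p.1.val))
    have h2 : ∀ w ∈ (E.filter (fun p => j ≤ p.1.val)).image (wt φ),
        ((E.filter (fun p => j ≤ p.1.val)).filter (fun q => wt φ q = w)).card ≤ K := by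
      intro w hw
      obtain ⟨p, hp, rfl⟩ := mem_image.1 hw
      refine le_trans ?_ (hKE p (mem_filter.1 hp).1)
      apply Finset.card_le_card
      apply Finset.filter_subset_filter
      exact Finset.filter_subset _ _
    have h3 : ((E.filter (fun p => j ≤ p.1.val)).image (wt φ)).card ≤ 2 * sz L K j := by
      refine le_trans ?_ (sz_sum hL1 hK hj)
      have h4 : (E.filter (fun p => j ≤ p.1.val)).image (wt φ) ⊆
          (univ.filter (fun l : Fin L => j ≤ l.val)).sigma (fun _ => univ) := by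
        intro w hw
        obtain ⟨p, hp, rfl⟩ := mem_image.1 hw
        rw [mem_sigma]
        refine ⟨?_, mem_univ _⟩
        rw [mem_filter]
        exact ⟨mem_univ _, (mem_filter.1 hp).2⟩
      refine (Finset.card_le_card h4).trans ?_
      rw [Finset.card_sigma]
      simp only [card_univ, Fintype.card_fin]
      have h5 : ∑ x ∈ univ.filter (fun l : Fin L => j ≤ l.val), sz L K x
          = ∑ x ∈ (univ.filter (fun l : Fin L => j ≤ l.val)).map Fin.valEmbedding, sz L K x := by
        rw [Finset.sum_map]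
        rfl
      rw [h5]
      apply Finset.sum_le_sum_of_subset
      intro x hx
      rw [mem_map] at hx
      obtain ⟨l, hl, rfl⟩ := hx
      rw [mem_filter] at hl
      rw [mem_Ico]
      exact ⟨hl.2, l.2⟩
    calc (E.filter (fun p => j ≤ p.1.val)).card = _ := h1
      _ ≤ ∑ w ∈ (E.filter (fun p => j ≤ p.1.val)).image (wt φ), K := Finset.sum_le_sum h2
      _ = ((E.filter (fun p => j ≤ p.1.val)).image (wt φ)).card * K := by
          rw [Finset.sum_const, smul_eq_mul]
      _ ≤ 2 * sz L K j * K := Nat.mul_le_mul_right _ h3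
      _ = _ := by ring
  have hex : ∃ j, j = L ∨ 8 * K * sz L K j ≤ m := ⟨L, Or.inl rfl⟩
  obtain ⟨j, hj, hjmin⟩ : ∃ j, (j = L ∨ 8 * K * sz L K j ≤ m) ∧
      ∀ i < j, ¬ (i = L ∨ 8 * K * sz L K i ≤ m) :=
    ⟨Nat.find hex, Nat.find_spec hex, fun i hi => Nat.find_min hex hi⟩
  have hjL : j ≤ L := by
    by_contra hlt
    exact hjmin L (by omega) (Or.inl rfl)
  have hlow4 : 4 * (E.filter (fun p => j ≤ p.1.val)).card ≤ m := by
    rcases lt_or_eq_of_le hjL with h | h
    · have h1 := hlow j h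
      have h2 : 8 * K * sz L K j ≤ m := hj.resolve_left (by omega)
      have h4 : K * (2 * sz L K j) * 4 = 8 * K * sz L K j := by ring
      omega
    · have : E.filter (fun p => j ≤ p.1.val) = ∅ := by
        rw [Finset.filter_eq_empty_iff]
        intro p _
        have := p.1.2
        omega
      rw [this]
      simp
  have hj0 : j ≠ 0 := by
    rintro rfl
    have : E.filter (fun p => 0 ≤ p.1.val) = E := by
      rw [Finset.filter_eq_self]
      intro p _
      omega
    rw [this] at hlow4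
    omega
  obtain ⟨i, rfl⟩ := Nat.exists_eq_succ_of_ne_zero hj0
  have hi := hjmin i (by omega)
  push Not at hi
  have hmid : (E.filter (fun p => p.1.val = i)).card ≤ m := by
    rw [hm]
    apply Finset.card_le_card_of_injOn Prod.snd
    · intro p hp
      rw [mem_coe, mem_filter] at hp
      exact mem_coe.2 (mem_image_of_mem _ hp.1)
    · intro p hp q hq hpq
      rw [mem_coe, mem_filter] at hp hq
      exact Prod.ext (Fin.ext (hp.2.trans hq.2.symm)) hpq
  obtain ⟨E', hE'⟩ : ∃ E', E' = E.filter (fun p => p.1.val < i) := ⟨_, rfl⟩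
  have hsplit : E.card = E'.card + (E.filter (fun p => p.1.val = i)).card +
      (E.filter (fun p => i.succ ≤ p.1.val)).card := by
    have h1 := Finset.card_filter_add_card_filter_not (s := E) (fun p => p.1.val < i)
    have h2 := Finset.card_filter_add_card_filter_not
      (s := E.filter (fun p => ¬ p.1.val < i)) (fun p => p.1.val = i)
    have h3 : (E.filter (fun p => ¬ p.1.val < i)).filter (fun p => p.1.val = i) =
        E.filter (fun p => p.1.val = i) := by
      ext p
      simp only [mem_filter]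
      constructor
      · rintro ⟨⟨a, b⟩, c⟩
        exact ⟨a, c⟩
      · rintro ⟨a, b⟩
        exact ⟨⟨a, by omega⟩, b⟩
    have h4 : (E.filter (fun p => ¬ p.1.val < i)).filter (fun p => ¬ p.1.val = i) =
        E.filter (fun p => i.succ ≤ p.1.val) := by
      ext p
      simp only [mem_filter]
      constructor
      · rintro ⟨⟨a, b⟩, c⟩
        exact ⟨a, by omega⟩
      · rintro ⟨a, b⟩
        exact ⟨⟨a, by omega⟩, by omega⟩
    rw [h3, h4] at h2
    rw [← h1, ← h2, hE']
    ring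
  have hup : 7 * m ≤ 4 * E'.card := by omega
  have hne : E'.Nonempty := by
    rw [← Finset.card_pos]
    omega
  have hi1 : 1 ≤ i := by
    obtain ⟨p, hp⟩ := hne
    rw [hE', mem_filter] at hp
    omega
  have hA : (E'.image Prod.snd).card ≤ m := by
    rw [hm]
    apply Finset.card_le_card
    apply Finset.image_subset_image
    rw [hE']
    exact Finset.filter_subset _ _
  have hB : 3 * (E'.image (wt φ)).card ≤ E'.card := by
    have h1 := Finset.card_eq_sum_card_image (wt φ) E'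
    rw [h1, mul_comm, ← smul_eq_mul, ← Finset.sum_const]
    apply Finset.sum_le_sum
    intro w hw
    obtain ⟨p, hp, rfl⟩ := mem_image.1 hw
    rw [hE', mem_filter] at hp
    refine (h3' p hp.1).trans ?_
    apply Finset.card_le_card
    intro q hq
    rw [mem_filter] at hq ⊢
    refine ⟨?_, hq.2⟩
    rw [hE', mem_filter]
    refine ⟨hq.1, ?_⟩
    have : (wt φ q).1 = (wt φ p).1 := by rw [hq.2]
    have : q.1 = p.1 := this
    rw [this]
    exact hp.2
  have hLm : E'.card ≤ L * m := by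
    have h1 : E' ⊆ (univ : Finset (Fin L)) ×ˢ (E.image Prod.snd) := by
      intro p hp
      rw [hE', mem_filter] at hp
      rw [mem_product]
      exact ⟨mem_univ _, mem_image_of_mem _ hp.1⟩
    have h2 := Finset.card_le_card h1
    rw [Finset.card_product, card_univ, Fintype.card_fin, ← hm] at h2
    exact h2
  have hgood := hφ i hi1 (by omega) E' hne (fun p hp => by
    rw [hE', mem_filter] at hp
    exact hp.2) (by
      have h1 : L * m ≤ L * (8 * K * sz L K i) := Nat.mul_le_mul_left _ (by omega)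
      have h2 : L * (8 * K * sz L K i) = 8 * L * K * sz L K i := by ring
      have h4 : 2 * m ≤ L * m := Nat.mul_le_mul_right _ hL
      omega)
  omega

/-- the bipartite graph -/
def gr {L N : ℕ} {n : ℕ → ℕ} (φ : Om L N n) : SimpleGraph (Fin N ⊕ W L n) where
  Adj x y := (∃ p, x = Sum.inl p.2 ∧ y = Sum.inr (wt φ p)) ∨
    (∃ p, y = Sum.inl p.2 ∧ x = Sum.inr (wt φ p))
  symm := ⟨fun _ _ h => h.symm⟩
  loopless := ⟨by
    rintro x (⟨p, h1, h2⟩ | ⟨p, h1, h2⟩)
    · rw [h1] at h2
      cases h2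
    · rw [h1] at h2
      cases h2⟩

theorem gr_adj {L N : ℕ} {n : ℕ → ℕ} (φ : Om L N n) (a : Fin N) (w : W L n) :
    (gr φ).Adj (Sum.inl a) (Sum.inr w) ↔ wt φ (w.1, a) = w := by
  constructor
  · rintro (⟨p, h1, h2⟩ | ⟨p, h1, h2⟩)
    · have h3 := Sum.inl.inj h1
      have h4 := Sum.inr.inj h2
      subst h3 h4
      rfl
    · cases h1
  · intro h
    exact Or.inl ⟨(w.1, a), rfl, by rw [h]⟩

theorem gr_no {L K : ℕ} (hL : 2 ≤ L) (hK : 1 ≤ K) {N : ℕ} (φ : Om L N (sz L K))
    (hφ : ∀ i, 1 ≤ i → i < L → Good K φ i) (H : (gr φ).Subgraph) (hne : H.verts.Nonempty)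
    (h3 : ∀ x ∈ H.verts, 3 ≤ (H.neighborSet x).ncard)
    (hK' : ∀ x ∈ H.verts, (H.neighborSet x).ncard ≤ K) : False := by
  classical
  let E : Finset (Fin L × Fin N) := univ.filter (fun p => H.Adj (Sum.inl p.2) (Sum.inr (wt φ p)))
  have hmem : ∀ p, p ∈ E ↔ H.Adj (Sum.inl p.2) (Sum.inr (wt φ p)) := by
    intro p
    simp [E]
  have hadj : ∀ a w, H.Adj (Sum.inl a) (Sum.inr w) → (w.1, a) ∈ E ∧ wt φ (w.1, a) = w := by
    intro a w h
    have h1 := (gr_adj φ a w).1 h.adj_sub
    refine ⟨?_, h1⟩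
    rw [hmem]
    simp only
    rw [h1]
    exact h
  refine no_dense hL hK φ hφ E ?_ ?_ ?_ ?_
  · obtain ⟨x, hx⟩ := hne
    have h1 := h3 x hx
    have h2 : (H.neighborSet x).Nonempty := by
      rw [← Set.ncard_pos (Set.toFinite _)]
      omega
    obtain ⟨y, hy⟩ := h2
    have hy' : H.Adj x y := hy
    rcases x with a | w
    · rcases y with a' | w'
      · rcases hy'.adj_sub with ⟨p, _, h⟩ | ⟨p, _, h⟩ <;> cases h
      · exact ⟨_, (hadj a w' hy').1⟩
    · rcases y with a' | w'
      · exact ⟨_, (hadj a' w hy'.symm).1⟩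
      · rcases hy'.adj_sub with ⟨p, h, _⟩ | ⟨p, h, _⟩ <;> cases h
  · intro p hp
    rw [hmem] at hp
    refine (h3 _ (H.edge_vert hp)).trans ?_
    have hsub : H.neighborSet (Sum.inl p.2) ⊆
        ((E.filter (fun q => q.2 = p.2)).image (fun q => (Sum.inr (wt φ q) : Fin N ⊕ W L (sz L K))) :
          Finset _) := by
      intro y hy
      have hy' : H.Adj (Sum.inl p.2) y := hy
      rcases y with a' | w'
      · rcases hy'.adj_sub with ⟨p, _, h⟩ | ⟨p, _, h⟩ <;> cases h
      · obtain ⟨h1, h2⟩ := hadj _ _ hy'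
        rw [mem_coe, mem_image]
        exact ⟨(w'.1, p.2), by rw [mem_filter]; exact ⟨h1, rfl⟩, by rw [h2]⟩
    refine (Set.ncard_le_ncard hsub (Finset.finite_toSet _)).trans ?_
    rw [Set.ncard_coe_finset]
    exact Finset.card_image_le
  · intro p hp
    rw [hmem] at hp
    refine (h3 _ (H.edge_vert hp.symm)).trans ?_
    have hsub : H.neighborSet (Sum.inr (wt φ p)) ⊆
        ((E.filter (fun q => wt φ q = wt φ p)).image (fun q => (Sum.inl q.2 : Fin N ⊕ W L (sz L K))) :
          Finset _) := by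
      intro y hy
      have hy' : H.Adj (Sum.inr (wt φ p)) y := hy
      rcases y with a' | w'
      · obtain ⟨h1, h2⟩ := hadj _ _ hy'.symm
        rw [mem_coe, mem_image]
        exact ⟨((wt φ p).1, a'), by rw [mem_filter]; exact ⟨h1, h2⟩, rfl⟩
      · rcases hy'.adj_sub with ⟨p, h, _⟩ | ⟨p, h, _⟩ <;> cases h
    refine (Set.ncard_le_ncard hsub (Finset.finite_toSet _)).trans ?_
    rw [Set.ncard_coe_finset]
    exact Finset.card_image_le
  · intro p hp
    rw [hmem] at hp
    refine le_trans ?_ (hK' _ (H.edge_vert hp.symm))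
    rw [← Set.ncard_coe_finset]
    apply Set.ncard_le_ncard_of_injOn (fun q => (Sum.inl q.2 : Fin N ⊕ W L (sz L K)))
    · intro q hq
      rw [mem_coe, mem_filter] at hq
      have h1 := (hmem q).1 hq.1
      rw [hq.2] at h1
      exact h1.symm
    · intro q hq q' hq' h
      rw [mem_coe, mem_filter] at hq hq'
      have h1 : q.1 = (wt φ p).1 := by rw [← hq.2]; rfl
      have h2 : q'.1 = (wt φ p).1 := by rw [← hq'.2]; rfl
      exact Prod.ext (h1.trans h2.symm) (Sum.inl.inj h)

theorem gr_edges {L N : ℕ} {n : ℕ → ℕ} (φ : Om L N n) : L * N ≤ (gr φ).edgeSet.ncard := by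
  classical
  have h1 : (Set.univ : Set (Fin L × Fin N)).ncard ≤ (gr φ).edgeSet.ncard := by
    apply Set.ncard_le_ncard_of_injOn
      (fun p => s((Sum.inl p.2 : Fin N ⊕ W L n), Sum.inr (wt φ p)))
    · intro p _
      exact Or.inl ⟨p, rfl, rfl⟩
    · intro p _ q _ h
      simp only at h
      rw [Sym2.eq_iff] at h
      rcases h with ⟨h1, h2⟩ | ⟨h1, h2⟩
      · have h3 := Sum.inl.inj h1
        have h4 := Sum.inr.inj h2
        have h5 : (wt φ p).1 = (wt φ q).1 := by rw [h4]
        exact Prod.ext h5 h3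
      · cases h1
  rw [Set.ncard_univ, Nat.card_eq_fintype_card, Fintype.card_prod] at h1
  simpa using h1

/-- For all `K` and `F` some nonempty finite graph with at least `F |V|` edges has no nonempty
subgraph all of whose degrees lie in `[3, K]`. -/
theorem main (K : ℕ) (F : ℝ) : ∃ (V : Type) (_ : Fintype V) (_ : Nonempty V) (G : SimpleGraph V),
    F * Fintype.card V ≤ G.edgeSet.ncard ∧
      ∀ H : G.Subgraph, H.verts.Nonempty → ¬ (∀ x ∈ H.verts, 3 ≤ (H.neighborSet x).ncard ∧
        (H.neighborSet x).ncard ≤ K) := by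
  obtain ⟨L, hL⟩ : ∃ L : ℕ, 2 ≤ L ∧ 2 * F ≤ L := by
    obtain ⟨M, hM⟩ := exists_nat_ge (2 * F)
    exact ⟨max 2 M, le_max_left _ _, hM.trans (by exact_mod_cast le_max_right 2 M)⟩
  have hL1 : 1 ≤ L := by omega
  have hK : 1 ≤ max 1 K := le_max_left _ _
  obtain ⟨φ, hφ⟩ := exists_good hL.1 hK
  have hN := Dv_pos hL1 hK L
  refine ⟨Fin (Dv L (max 1 K) L) ⊕ W L (sz L (max 1 K)), inferInstance, ⟨Sum.inl ⟨0, by omega⟩⟩,
    gr φ, ?_, ?_⟩
  · have h1 := gr_edges φ
    have hcard : Fintype.card (Fin (Dv L (max 1 K) L) ⊕ W L (sz L (max 1 K)))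
        ≤ 2 * Dv L (max 1 K) L := by
      rw [Fintype.card_sum, Fintype.card_sigma]
      simp only [Fintype.card_fin]
      have hsum : ∑ l : Fin L, sz L (max 1 K) l ≤ Dv L (max 1 K) L := by
        rw [Fin.sum_univ_eq_sum_range (fun l => sz L (max 1 K) l) L]
        have h1 := sz_sum hL1 hK (j := 0) (by omega)
        have h2 := sz_mul L (max 1 K) (l := 0) (by omega)
        simp only [Dv] at h2
        rw [← Finset.range_eq_Ico] at h1
        omega
      omega
    have h2 : ((L * Dv L (max 1 K) L : ℕ) : ℝ) ≤ ((gr φ).edgeSet.ncard : ℝ) := by exact_mod_cast h1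
    refine le_trans ?_ h2
    have h3 : (Fintype.card (Fin (Dv L (max 1 K) L) ⊕ W L (sz L (max 1 K))) : ℝ)
        ≤ 2 * (Dv L (max 1 K) L : ℝ) := by exact_mod_cast hcard
    push_cast
    have h4 : F ≤ (L : ℝ) / 2 := by linarith [hL.2]
    have h5 : (0 : ℝ) ≤ (Fintype.card (Fin (Dv L (max 1 K) L) ⊕ W L (sz L (max 1 K))) : ℝ) := by
      positivity
    have h6 : (0 : ℝ) ≤ (L : ℝ) / 2 := by positivity
    calc F * (Fintype.card (Fin (Dv L (max 1 K) L) ⊕ W L (sz L (max 1 K))) : ℝ)
        ≤ (L : ℝ) / 2 * (Fintype.card (Fin (Dv L (max 1 K) L) ⊕ W L (sz L (max 1 K))) : ℝ) :=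
          mul_le_mul_of_nonneg_right h4 h5
      _ ≤ (L : ℝ) / 2 * (2 * (Dv L (max 1 K) L : ℝ)) := mul_le_mul_of_nonneg_left h3 h6
      _ = _ := by ring
  · intro H hne hH
    exact gr_no hL.1 hK φ hφ H hne (fun x hx => (hH x hx).1)
      (fun x hx => (hH x hx).2.trans (le_max_right _ _))

end Pool.Agent.H233R2.QR
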