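import Pool.Agent.H306R2.RZ.Defs6

set_option autoImplicit false

/-!
Project RZ (helper306), sixth wave, task UB2 (helper233): uniform upper bound of the mollified
second moment, new range `s + θ < 1`, `θ < 1/2`. All inputs are explicit hypotheses (the verbatim
statements of X1, MT1, MT2, S5 (first wave), EZ, TRI0 (fifth wave), S4d, S5d, MT2d (sixth wave)).
-/

namespace Pool.Agent.H233R2.RZ6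

open Finset Filter Topology MeasureTheory Pool.Agent.H306R2.RZ

noncomputable section

/-- statement of X1 -/
def StX1 : Prop := ∀ (F : ℝ → ℝ) (_ : TF F) (X : ℝ) (_ : 0 < X) (q : ℕ) (_ : Even q) (_ : q ≠ 0)
    (L : ℝ) (_ : 0 < L) (s : ℝ) (w1 w2 Q1 Q2 : ℝ → ℝ) (_ : Wt s w1) (_ : Wt s w2)
    (_ : Wt s Q1) (_ : Wt s Q2),
    TT F X q L w1 Q1 w2 Q2 =
      1 / 2 * Ft F 0 * (∑' a : Fin 4 → ℕ, t1c q a * w4 L w1 w2 Q1 Q2 a) +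
      (∑' a : Fin 4 → ℕ, t4c q a * w4 L w1 w2 Q1 Q2 a * Dsq F X (∏ i, a i)) +
      (∑' a : Fin 4 → ℕ, t4c q a * w4 L w1 w2 Q1 Q2 a * Dns F X (∏ i, a i))

/-- statement of MT1 -/
def StMT1 : Prop := ∀ (q : ℕ) (_ : q ≠ 0) (s : ℝ),
    (∃ (C : ℝ) (k : ℕ), 0 < C ∧ ∀ L : ℝ, 1 ≤ L → ∀ (w1 w2 Q1 Q2 : ℝ → ℝ) (B1 B2 B3 B4 : ℝ),
      Wt s w1 → Wt s w2 → Wt s Q1 → Wt s Q2 → Bd k w1 B1 → Bd k w2 B2 → Bd k Q1 B3 → Bd k Q2 B4 →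
      |∑' a : Fin 4 → ℕ, t1c q a * w4 L w1 w2 Q1 Q2 a| ≤ C * B1 * B2 * B3 * B4) ∧
    (∀ w1 w2 Q1 Q2 : ℝ → ℝ, Wt s w1 → Wt s w2 → Wt s Q1 → Wt s Q2 →
      Tendsto (fun L : ℝ => ∑' a : Fin 4 → ℕ, t1c q a * w4 L w1 w2 Q1 Q2 a) atTop
        (𝓝 ((mn w1 Q1 * mn w2 Q2 + ∫ t in Set.Ioi (0 : ℝ), ∫ y in Set.Ioi (0 : ℝ),
        al w1 Q1 y t * al w2 Q2 y t) / 4)))

/-- statement of MT2 -/
def StMT2 : Prop := ∀ (F : ℝ → ℝ) (_ : TF F) (q : ℕ) (_ : q ≠ 0) (c : ℝ) (_ : 0 < c) (s : ℝ)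
    (_ : s < 1),
    (∃ (C L0 : ℝ) (k : ℕ), 0 < C ∧ ∀ L : ℝ, L0 ≤ L → ∀ (w1 w2 Q1 Q2 : ℝ → ℝ) (B1 B2 B3 B4 : ℝ),
      Wt s w1 → Wt s w2 → Wt s Q1 → Wt s Q2 → Bd k w1 B1 → Bd k w2 B2 → Bd k Q1 B3 → Bd k Q2 B4 →
      ‖T2m F (c * Real.exp L) q L w1 w2 Q1 Q2 (1 / L)‖ ≤ C * B1 * B2 * B3 * B4) ∧
    (∀ w1 w2 Q1 Q2 : ℝ → ℝ, Wt s w1 → Wt s w2 → Wt s Q1 → Wt s Q2 →
      Tendsto (fun L : ℝ => T2m F (c * Real.exp L) q L w1 w2 Q1 Q2 (1 / L)) atTop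
        (𝓝 ((1 / 2 * Ft F 0 * (-(1 / 4) * ∫ t in Set.Ioi (0 : ℝ), ∫ y in Set.Ioi (0 : ℝ),
        al w1 Q1 (1 - y) t * al w2 Q2 y t) : ℝ) : ℂ)))

/-- statement of S5 -/
def StS5 : Prop := ∀ (F : ℝ → ℝ) (_ : TF F) (X : ℝ) (_ : 0 < X) (q : ℕ) (_ : q ≠ 0) (L : ℝ)
    (_ : 0 < L) (s : ℝ) (w1 w2 Q1 Q2 : ℝ → ℝ) (_ : Wt s w1) (_ : Wt s w2) (_ : Wt s Q1)
    (_ : Wt s Q2) (σ0 σ1 : ℝ) (_ : 0 < σ1) (_ : σ1 ≤ σ0) (_ : σ0 ≤ 1),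
    T2m F X q L w1 w2 Q1 Q2 σ0 = T2m F X q L w1 w2 Q1 Q2 σ1

/-- statement of EZ -/
def StEZ : Prop := ∀ (ς : ℝ) (_ : 0 ≤ ς) (_ : TRIP ς) (F : ℝ → ℝ) (_ : TF F) (q : ℕ)
    (_ : Even q) (_ : q ≠ 0) (c : ℝ) (_ : 0 < c) (s θ : ℝ) (_ : 1 / 2 ≤ s) (_ : 0 < θ)
    (_ : θ < 1 / 2) (_ : s + θ + 2 * θ * ς < 1),
    ∃ (C η L0 : ℝ) (A : ℕ), 0 < C ∧ 0 < η ∧ ∀ L : ℝ, L0 ≤ L →
      ∀ (w1 w2 Q1 Q2 : ℝ → ℝ) (B1 B2 B3 B4 : ℝ),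
      Wt s w1 → Wt s w2 → Wt θ Q1 → Wt θ Q2 → Bd A w1 B1 → Bd A w2 B2 → Bd A Q1 B3 → Bd A Q2 B4 →
      |∑' a : Fin 4 → ℕ, t4c q a * w4 L w1 w2 Q1 Q2 a * Dns F (c * Real.exp L) (∏ i, a i)| ≤
        C * B1 * B2 * B3 * B4 * Real.exp (-(η * L))

/-- statement of S4d -/
def StS4d : Prop := ∀ (F : ℝ → ℝ) (_ : TF F) (q : ℕ) (_ : Even q) (_ : q ≠ 0) (c : ℝ)
    (_ : 0 < c) (s θ : ℝ) (_ : 1 / 2 ≤ s) (_ : s < 1) (_ : 0 < θ) (_ : θ < 1 / 2),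
    ∃ C η a L0 : ℝ, 0 < C ∧ 0 < η ∧ 0 < a ∧ a ≤ 1 / 8 ∧ ∀ L : ℝ, L0 ≤ L →
      ∀ (w1 w2 Q1 Q2 : ℝ → ℝ) (B1 B2 B3 B4 : ℝ),
      Wt s w1 → Wt s w2 → Wt θ Q1 → Wt θ Q2 → Bd 1 w1 B1 → Bd 1 w2 B2 → Bd 1 Q1 B3 → Bd 1 Q2 B4 →
      ‖((∑' a : Fin 4 → ℕ, t4c q a * w4 L w1 w2 Q1 Q2 a * Dsq F (c * Real.exp L) (∏ i, a i) : ℝ) : ℂ) -
        T2m F (c * Real.exp L) q L w1 w2 Q1 Q2 (1 / 2 + a) -
        T2m F (c * Real.exp L) q L w2 w1 Q2 Q1 (1 / 2 + a) +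
        T2d F (c * Real.exp L) q L w1 w2 Q1 Q2 (1 / 2 + a)‖ ≤
        C * B1 * B2 * B3 * B4 * Real.exp (-(η * L))

/-- statement of S5d -/
def StS5d : Prop := ∀ (F : ℝ → ℝ) (_ : TF F) (X : ℝ) (_ : 0 < X) (q : ℕ) (_ : q ≠ 0) (L : ℝ)
    (_ : 0 < L) (s : ℝ) (w1 w2 Q1 Q2 : ℝ → ℝ) (_ : Wt s w1) (_ : Wt s w2) (_ : Wt s Q1)
    (_ : Wt s Q2) (σ0 σ1 : ℝ) (_ : 0 < σ1) (_ : σ1 ≤ σ0) (_ : σ0 ≤ 1),
    T2d F X q L w1 w2 Q1 Q2 σ0 = T2d F X q L w1 w2 Q1 Q2 σ1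

/-- statement of MT2d -/
def StMT2d : Prop := ∀ (F : ℝ → ℝ) (_ : TF F) (q : ℕ) (_ : q ≠ 0) (c : ℝ) (_ : 0 < c) (s : ℝ)
    (_ : s < 1),
    (∃ (C L0 : ℝ) (k : ℕ), 0 < C ∧ ∀ L : ℝ, L0 ≤ L → ∀ (w1 w2 Q1 Q2 : ℝ → ℝ) (B1 B2 B3 B4 : ℝ),
      Wt s w1 → Wt s w2 → Wt s Q1 → Wt s Q2 → Bd k w1 B1 → Bd k w2 B2 → Bd k Q1 B3 → Bd k Q2 B4 →
      ‖T2d F (c * Real.exp L) q L w1 w2 Q1 Q2 (1 / L)‖ ≤ C * B1 * B2 * B3 * B4) ∧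
    (∀ w1 w2 Q1 Q2 : ℝ → ℝ, Wt s w1 → Wt s w2 → Wt s Q1 → Wt s Q2 →
      Tendsto (fun L : ℝ => T2d F (c * Real.exp L) q L w1 w2 Q1 Q2 (1 / L)) atTop
        (𝓝 ((1 / 2 * Ft F 0 * (-(1 / 4) * ∫ t in Set.Ioi (0 : ℝ), ∫ y in Set.Ioi (0 : ℝ),
        al w1 Q1 (1 - y) t * al w2 Q2 y t) : ℝ) : ℂ)))

theorem Bd_mono {j k : ℕ} {w : ℝ → ℝ} {B : ℝ} (h : Bd k w B) (hjk : j ≤ k) : Bd j w B :=
  fun i hi y => h i (hi.trans hjk) y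

theorem Bd_nonneg {k : ℕ} {w : ℝ → ℝ} {B : ℝ} (h : Bd k w B) : 0 ≤ B :=
  (abs_nonneg _).trans (h 0 (Nat.zero_le _) 0)

theorem Wt_mono {s t : ℝ} {w : ℝ → ℝ} (h : Wt s w) (hst : s ≤ t) : Wt t w :=
  ⟨h.smooth, fun y hy => ⟨(h.supp y hy).1, (h.supp y hy).2.trans hst⟩⟩

/-- UB2 with its inputs as hypotheses -/
theorem UB2_of (X1 : StX1) (MT1 : StMT1) (MT2 : StMT2) (S5 : StS5) (EZ : StEZ) (TRI0 : TRIP 0)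
    (S4d : StS4d) (S5d : StS5d) (MT2d : StMT2d)
    (F : ℝ → ℝ) (hF : TF F) (q : ℕ) (hq : Even q) (hq0 : q ≠ 0) (c : ℝ) (hc : 0 < c)
    (s θ : ℝ) (hs : 1 / 2 ≤ s) (hθ : 0 < θ) (hθ1 : θ < 1 / 2) (h : s + θ < 1) :
    ∃ (C L0 : ℝ) (k : ℕ), 0 < C ∧ ∀ L : ℝ, L0 ≤ L → ∀ (w1 w2 Q1 Q2 : ℝ → ℝ) (B1 B2 B3 B4 : ℝ),
      Wt s w1 → Wt s w2 → Wt θ Q1 → Wt θ Q2 → Bd k w1 B1 → Bd k w2 B2 → Bd k Q1 B3 → Bd k Q2 B4 →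
      |TT F (c * Real.exp L) q L w1 Q1 w2 Q2| ≤ C * B1 * B2 * B3 * B4 := by
  obtain ⟨C7, η7, L7, k7, hC7, hη7, h7⟩ :=
    EZ 0 le_rfl TRI0 F hF q hq hq0 c hc s θ hs hθ hθ1 (by simpa using h)
  obtain ⟨C4, η4, a, L4, hC4, hη4, ha, ha1, h4⟩ :=
    S4d F hF q hq hq0 c hc s θ hs (by linarith) hθ hθ1
  obtain ⟨⟨C1, k1, hC1, h1⟩, -⟩ := MT1 q hq0 s
  obtain ⟨⟨C2, L2, k2, hC2, h2⟩, -⟩ := MT2 F hF q hq0 c hc s (by linarith)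
  obtain ⟨⟨C3, L3, k3, hC3, h3⟩, -⟩ := MT2d F hF q hq0 c hc s (by linarith)
  refine ⟨|1 / 2 * Ft F 0| * C1 + (C4 + C2 + C2 + C3) + C7, max (max L7 L4) (max (max L2 L3) 2),
    max (max (max k1 k2) (max k3 k7)) 1, by positivity, ?_⟩
  intro L hL w1 w2 Q1 Q2 B1 B2 B3 B4 hw1 hw2 hQ1 hQ2 b1 b2 b3 b4
  have hL7 : L7 ≤ L := ((le_max_left _ _).trans (le_max_left _ _)).trans hL
  have hL4 : L4 ≤ L := ((le_max_right _ _).trans (le_max_left _ _)).trans hL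
  have hL2 : L2 ≤ L := (((le_max_left _ _).trans (le_max_left _ _)).trans (le_max_right _ _)).trans hL
  have hL3 : L3 ≤ L := (((le_max_right _ _).trans (le_max_left _ _)).trans (le_max_right _ _)).trans hL
  have hLt : 2 ≤ L := ((le_max_right _ _).trans (le_max_right _ _)).trans hL
  have hθs : θ ≤ s := by linarith
  have hQ1' := Wt_mono hQ1 hθs
  have hQ2' := Wt_mono hQ2 hθs
  have hX : 0 < c * Real.exp L := by positivity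
  have hk1 : k1 ≤ max (max (max k1 k2) (max k3 k7)) 1 :=
    ((le_max_left _ _).trans (le_max_left _ _)).trans (le_max_left _ _)
  have hk2 : k2 ≤ max (max (max k1 k2) (max k3 k7)) 1 :=
    ((le_max_right _ _).trans (le_max_left _ _)).trans (le_max_left _ _)
  have hk3 : k3 ≤ max (max (max k1 k2) (max k3 k7)) 1 :=
    ((le_max_left _ _).trans (le_max_right _ _)).trans (le_max_left _ _)
  have hk7 : k7 ≤ max (max (max k1 k2) (max k3 k7)) 1 :=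
    ((le_max_right _ _).trans (le_max_right _ _)).trans (le_max_left _ _)
  have hk0 : 1 ≤ max (max (max k1 k2) (max k3 k7)) 1 := le_max_right _ _
  have e1 := h1 L (by linarith) w1 w2 Q1 Q2 B1 B2 B3 B4 hw1 hw2 hQ1' hQ2' (Bd_mono b1 hk1)
    (Bd_mono b2 hk1) (Bd_mono b3 hk1) (Bd_mono b4 hk1)
  have e2 := h2 L hL2 w1 w2 Q1 Q2 B1 B2 B3 B4 hw1 hw2 hQ1' hQ2' (Bd_mono b1 hk2)
    (Bd_mono b2 hk2) (Bd_mono b3 hk2) (Bd_mono b4 hk2)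
  have e2' := h2 L hL2 w2 w1 Q2 Q1 B2 B1 B4 B3 hw2 hw1 hQ2' hQ1' (Bd_mono b2 hk2)
    (Bd_mono b1 hk2) (Bd_mono b4 hk2) (Bd_mono b3 hk2)
  have e3 := h3 L hL3 w1 w2 Q1 Q2 B1 B2 B3 B4 hw1 hw2 hQ1' hQ2' (Bd_mono b1 hk3)
    (Bd_mono b2 hk3) (Bd_mono b3 hk3) (Bd_mono b4 hk3)
  have e4 := h4 L hL4 w1 w2 Q1 Q2 B1 B2 B3 B4 hw1 hw2 hQ1 hQ2 (Bd_mono b1 hk0)
    (Bd_mono b2 hk0) (Bd_mono b3 hk0) (Bd_mono b4 hk0)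
  have e7 := h7 L hL7 w1 w2 Q1 Q2 B1 B2 B3 B4 hw1 hw2 hQ1 hQ2 (Bd_mono b1 hk7)
    (Bd_mono b2 hk7) (Bd_mono b3 hk7) (Bd_mono b4 hk7)
  have hσ1 : (0 : ℝ) < 1 / L := by positivity
  have hσ : 1 / L ≤ 1 / 2 + a := by
    rw [div_le_iff₀ (by linarith)]
    nlinarith
  rw [S5 F hF (c * Real.exp L) hX q hq0 L (by linarith) s w1 w2 Q1 Q2 hw1 hw2 hQ1' hQ2'
    (1 / 2 + a) (1 / L) hσ1 hσ (by linarith),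
    S5 F hF (c * Real.exp L) hX q hq0 L (by linarith) s w2 w1 Q2 Q1 hw2 hw1 hQ2' hQ1'
    (1 / 2 + a) (1 / L) hσ1 hσ (by linarith),
    S5d F hF (c * Real.exp L) hX q hq0 L (by linarith) s w1 w2 Q1 Q2 hw1 hw2 hQ1' hQ2'
    (1 / 2 + a) (1 / L) hσ1 hσ (by linarith)] at e4
  rw [X1 F hF (c * Real.exp L) hX q hq hq0 L (by linarith) s w1 w2 Q1 Q2 hw1 hw2 hQ1' hQ2']
  have hP : 0 ≤ B1 * B2 * B3 * B4 :=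
    mul_nonneg (mul_nonneg (mul_nonneg (Bd_nonneg b1) (Bd_nonneg b2)) (Bd_nonneg b3)) (Bd_nonneg b4)
  have hexp : ∀ η : ℝ, 0 < η → Real.exp (-(η * L)) ≤ 1 := by
    intro η hη
    rw [Real.exp_le_one_iff]
    have : 0 ≤ η * L := by positivity
    linarith
  have e4' : C4 * B1 * B2 * B3 * B4 * Real.exp (-(η4 * L)) ≤ C4 * B1 * B2 * B3 * B4 := by
    have hn : 0 ≤ C4 * B1 * B2 * B3 * B4 := by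
      have : C4 * B1 * B2 * B3 * B4 = C4 * (B1 * B2 * B3 * B4) := by ring
      rw [this]; positivity
    exact mul_le_of_le_one_right hn (hexp η4 hη4)
  have e7' : C7 * B1 * B2 * B3 * B4 * Real.exp (-(η7 * L)) ≤ C7 * B1 * B2 * B3 * B4 := by
    have hn : 0 ≤ C7 * B1 * B2 * B3 * B4 := by
      have : C7 * B1 * B2 * B3 * B4 = C7 * (B1 * B2 * B3 * B4) := by ring
      rw [this]; positivity
    exact mul_le_of_le_one_right hn (hexp η7 hη7)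
  set D1 : ℝ := ∑' a : Fin 4 → ℕ, t1c q a * w4 L w1 w2 Q1 Q2 a
  set D2 : ℝ := ∑' a : Fin 4 → ℕ, t4c q a * w4 L w1 w2 Q1 Q2 a * Dsq F (c * Real.exp L) (∏ i, a i)
  set D3 : ℝ := ∑' a : Fin 4 → ℕ, t4c q a * w4 L w1 w2 Q1 Q2 a * Dns F (c * Real.exp L) (∏ i, a i)
  set T2 : ℂ := T2m F (c * Real.exp L) q L w1 w2 Q1 Q2 (1 / L)
  set T2' : ℂ := T2m F (c * Real.exp L) q L w2 w1 Q2 Q1 (1 / L)
  set T3 : ℂ := T2d F (c * Real.exp L) q L w1 w2 Q1 Q2 (1 / L)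
  have f2 : |D2| ≤ C4 * B1 * B2 * B3 * B4 + C2 * B1 * B2 * B3 * B4 +
      C2 * B2 * B1 * B4 * B3 + C3 * B1 * B2 * B3 * B4 := by
    have g1 : |D2| = ‖(D2 : ℂ)‖ := by
      rw [Complex.norm_real, Real.norm_eq_abs]
    rw [g1]
    calc ‖(D2 : ℂ)‖ = ‖((D2 : ℂ) - T2 - T2' + T3) + T2 + T2' - T3‖ := by
          congr 1
          ring
      _ ≤ ‖((D2 : ℂ) - T2 - T2' + T3) + T2 + T2'‖ + ‖T3‖ := norm_sub_le _ _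
      _ ≤ ‖((D2 : ℂ) - T2 - T2' + T3) + T2‖ + ‖T2'‖ + ‖T3‖ := by
          gcongr
          exact norm_add_le _ _
      _ ≤ ‖(D2 : ℂ) - T2 - T2' + T3‖ + ‖T2‖ + ‖T2'‖ + ‖T3‖ := by
          gcongr
          exact norm_add_le _ _
      _ ≤ _ := add_le_add (add_le_add (add_le_add (e4.trans e4') e2) e2') e3
  have f1 : |1 / 2 * Ft F 0 * D1| ≤ |1 / 2 * Ft F 0| * (C1 * B1 * B2 * B3 * B4) := by
    rw [abs_mul]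
    exact mul_le_mul_of_nonneg_left e1 (abs_nonneg _)
  calc |1 / 2 * Ft F 0 * D1 + D2 + D3| ≤ |1 / 2 * Ft F 0 * D1| + |D2| + |D3| := by
        refine (abs_add_le _ _).trans ?_
        gcongr
        exact abs_add_le _ _
    _ ≤ |1 / 2 * Ft F 0| * (C1 * B1 * B2 * B3 * B4) +
        (C4 * B1 * B2 * B3 * B4 + C2 * B1 * B2 * B3 * B4 +
          C2 * B2 * B1 * B4 * B3 + C3 * B1 * B2 * B3 * B4) + C7 * B1 * B2 * B3 * B4 := by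
        linarith [e7.trans e7']
    _ = (|1 / 2 * Ft F 0| * C1 + (C4 + C2 + C2 + C3) + C7) * B1 * B2 * B3 * B4 := by ring

end

end Pool.Agent.H233R2.RZ6
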